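import Pool.Agent.Lib.MP_904526_E.Defs
import Pool.Agent.Lib.MP_904526_P.AN

open Set Filter Topology

namespace ME

/-- THEOREM AN (part 1, helper36) -/
theorem AN : ∃ δ : ℝ, 0 < δ ∧ ∀ c b : ℝ, -14 ≤ c → c ≤ 1 → 1 / 5 ≤ |b| → |b| ≤ 2 / 5 →
    ∀ ψ : ℂ → ℂ × ℂ, RealCurve ψ → (∀ s, ψ s ∈ Kp c b) → (∀ t : ℝ, 0 ≤ t → ψ (t : ℂ) ∈ Km c b) →
    (∃ C : ℝ, ∀ s : ℂ, lp ‖ψ s‖ ≤ C * (1 + ‖s‖) ^ (1 / 2 + δ)) → ∀ s s' : ℂ, ψ s = ψ s' := by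
  obtain ⟨δ, hδ, H⟩ := HE.AN
  refine ⟨δ, hδ, ?_⟩
  intro c b h1 h2 h3 h4 ψ hψ hk hm hC s s'
  obtain ⟨C, hC⟩ := hC
  by_contra hne
  refine H c b ⟨h1, h2, h3, h4⟩ ψ hψ.diff hψ.real hk hm ?_ C hC
  by_contra hcon
  push Not at hcon
  exact hne ((hcon s).trans (hcon s').symm)

end ME
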