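import Pool.Agent.Lib.MP_904526_E.Defs

open Set Filter Topology

namespace ME

theorem le_exp_lp (t : ℝ) : t ≤ Real.exp (lp t) := by
  rcases le_or_gt t 0 with h | h
  · exact h.trans (Real.exp_pos _).le
  · calc t = Real.exp (Real.log t) := (Real.exp_log h).symm
      _ ≤ Real.exp (lp t) := Real.exp_le_exp.mpr (le_max_right _ _)

/-- every complex number is the fourth power of a point of the closed first quadrant -/
theorem exists_quadrant_root (s : ℂ) : ∃ z : ℂ, 0 ≤ z.re ∧ 0 ≤ z.im ∧ z ^ 4 = s := by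
  by_cases hs : s = 0
  · exact ⟨0, by simp, by simp, by simp [hs]⟩
  set w : ℂ := Complex.exp (Complex.log s / 4) with hw
  have hw4 : w ^ 4 = s := by
    rw [hw, ← Complex.exp_nat_mul]
    have : ((4 : ℕ) : ℂ) * (Complex.log s / 4) = Complex.log s := by
      push_cast; ring
    rw [this, Complex.exp_log hs]
  have him : (Complex.log s / 4).im = s.arg / 4 := by
    have h4 : Complex.log s / 4 = Complex.log s / ((4 : ℝ) : ℂ) := by norm_num
    rw [h4, Complex.div_ofReal_im, Complex.log_im]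
  have hre : w.re = Real.exp ((Complex.log s / 4).re) * Real.cos (s.arg / 4) := by
    rw [hw, Complex.exp_re, him]
  have him' : w.im = Real.exp ((Complex.log s / 4).re) * Real.sin (s.arg / 4) := by
    rw [hw, Complex.exp_im, him]
  have h1 := Complex.neg_pi_lt_arg s
  have h2 := Complex.arg_le_pi s
  have hpi := Real.pi_pos
  have hcos : 0 ≤ Real.cos (s.arg / 4) :=
    Real.cos_nonneg_of_mem_Icc ⟨by linarith, by linarith⟩
  by_cases ha : 0 ≤ s.arg
  · refine ⟨w, ?_, ?_, hw4⟩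
    · rw [hre]; positivity
    · rw [him']
      exact mul_nonneg (Real.exp_pos _).le
        (Real.sin_nonneg_of_nonneg_of_le_pi (by linarith) (by linarith))
  · push Not at ha
    refine ⟨w * Complex.I, ?_, ?_, ?_⟩
    · rw [Complex.mul_I_re, him']
      have : Real.sin (s.arg / 4) ≤ 0 :=
        Real.sin_nonpos_of_nonpos_of_neg_pi_le (by linarith) (by linarith)
      have h3 := (Real.exp_pos ((Complex.log s / 4).re)).le
      nlinarith [mul_nonneg h3 (neg_nonneg.mpr this)]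
    · rw [Complex.mul_I_im, hre]; positivity
    · rw [mul_pow, hw4, Complex.I_pow_four, mul_one]

/-- THEOREM AN0 (Wiman range) -/
theorem AN0 (ψ : ℂ → ℂ × ℂ) (hψ : Differentiable ℂ ψ) (R : ℝ)
    (hR : ∀ t : ℝ, 0 ≤ t → ‖ψ (t : ℂ)‖ ≤ R) (C a : ℝ) (ha : a < 1 / 2)
    (hC : ∀ s : ℂ, lp ‖ψ s‖ ≤ C * (1 + ‖s‖) ^ a) : ∀ s s' : ℂ, ψ s = ψ s' := by
  have hbd : ∀ s : ℂ, ‖ψ s‖ ≤ R := by
    intro s
    obtain ⟨z, hz1, hz2, rfl⟩ := exists_quadrant_root s
    set f : ℂ → ℂ × ℂ := fun z => ψ (z ^ 4) with hf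
    have hfd : Differentiable ℂ f := hψ.comp (differentiable_id.pow 4)
    show ‖f z‖ ≤ R
    refine PhragmenLindelof.quadrant_I hfd.diffContOnCl ?_ ?_ ?_ hz1 hz2
    · set a' : ℝ := max a 0 with ha'
      set C' : ℝ := max C 0 with hC'
      refine ⟨4 * a', ?_, C' * 2 ^ a', ?_⟩
      · have : a' < 1 / 2 := max_lt ha (by norm_num)
        linarith
      · refine Asymptotics.IsBigO.of_bound 1 ?_
        have hlarge : ∀ᶠ z : ℂ in Bornology.cobounded ℂ ⊓ 𝓟 (Ioi 0 ×ℂ Ioi 0), 1 ≤ ‖z‖ :=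
          ((tendsto_norm_cobounded_atTop.eventually (eventually_ge_atTop 1)).filter_mono
            inf_le_left)
        filter_upwards [hlarge] with z hz
        rw [one_mul, Real.norm_of_nonneg (Real.exp_pos _).le]
        refine (le_exp_lp _).trans (Real.exp_le_exp.mpr ?_)
        refine (hC (z ^ 4)).trans ?_
        have h0 : (0 : ℝ) < 1 + ‖z ^ 4‖ := by positivity
        have h1 : (1 : ℝ) ≤ 1 + ‖z ^ 4‖ := by
          have := norm_nonneg (z ^ 4); linarith
        have h2 : (1 + ‖z ^ 4‖) ^ a ≤ (1 + ‖z ^ 4‖) ^ a' :=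
          Real.rpow_le_rpow_of_exponent_le h1 (le_max_left _ _)
        have ha0 : 0 ≤ a' := le_max_right _ _
        have h3 : 1 + ‖z ^ 4‖ ≤ 2 * ‖z‖ ^ (4 : ℝ) := by
          rw [norm_pow, show (4 : ℝ) = ((4 : ℕ) : ℝ) by norm_num, Real.rpow_natCast]
          have : 1 ≤ ‖z‖ ^ 4 := one_le_pow₀ hz
          linarith
        have h4 : (1 + ‖z ^ 4‖) ^ a' ≤ 2 ^ a' * ‖z‖ ^ (4 * a') := by
          refine (Real.rpow_le_rpow h0.le h3 ha0).trans ?_
          rw [Real.mul_rpow (by norm_num) (by positivity), ← Real.rpow_mul (norm_nonneg _)]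
        calc C * (1 + ‖z ^ 4‖) ^ a ≤ C' * (1 + ‖z ^ 4‖) ^ a :=
              mul_le_mul_of_nonneg_right (le_max_left _ _) (by positivity)
          _ ≤ C' * (1 + ‖z ^ 4‖) ^ a' :=
              mul_le_mul_of_nonneg_left h2 (le_max_right _ _)
          _ ≤ C' * (2 ^ a' * ‖z‖ ^ (4 * a')) :=
              mul_le_mul_of_nonneg_left h4 (le_max_right _ _)
          _ = C' * 2 ^ a' * ‖z‖ ^ (4 * a') := by ring
    · intro x hx
      have := hR (x ^ 4) (by positivity)
      simpa [hf] using this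
    · intro x hx
      have := hR (x ^ 4) (by positivity)
      have h4 : ((x : ℂ) * Complex.I) ^ 4 = (((x ^ 4 : ℝ)) : ℂ) := by
        rw [mul_pow, Complex.I_pow_four, mul_one]; push_cast; ring
      simp only [hf]
      rw [h4]; exact this
  intro s s'
  refine hψ.apply_eq_apply_of_bounded ?_ s s'
  refine (Metric.isBounded_closedBall (x := (0 : ℂ × ℂ)) (r := R)).subset ?_
  rintro _ ⟨s, rfl⟩
  simpa using hbd s

end ME
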