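import Mathlib

/-!
# Definitions for Theorem E (mild dissipation beyond |b| = 1/4)
-/

open Set Filter Topology MeasureTheory

namespace ME

/-- The real quadratic Henon map with parameters `c` and `b`. -/
def henonMap (c b : ℝ) (p : ℝ × ℝ) : ℝ × ℝ := (p.1 ^ 2 + c - b * p.2, p.1)

/-- The stable set of `x`: the points whose forward orbit approaches that of `x` exponentially
fast. -/
def stableSet (c b : ℝ) (x : ℝ × ℝ) : Set (ℝ × ℝ) :=
  {y | ∃ κ : ℝ, 0 < κ ∧ ∃ C : ℝ, ∀ n : ℕ,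
    dist ((henonMap c b)^[n] y) ((henonMap c b)^[n] x) ≤ C * Real.exp (-κ * n)}

/-- `μ` is supported on a sink: the orbit of a periodic point `p`, some iterate of the map fixing
`p` being a contraction at `p`, has full measure. -/
def SupportedOnSink (c b : ℝ) (μ : Measure (ℝ × ℝ)) : Prop :=
  ∃ (p : ℝ × ℝ) (m : ℕ), 0 < m ∧ (henonMap c b)^[m] p = p ∧
    ‖fderiv ℝ ((henonMap c b)^[m]) p‖ < 1 ∧
    μ {q | ∃ k : ℕ, q = (henonMap c b)^[k] p} = 1

/-- Mild dissipation: `|b| < 1` and for every ergodic invariant probability measure which is not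
supported on a sink, for almost every `x` the stable set of `x` is an injectively immersed line of
class C^1 through `x` and both components of the stable set minus `x` are unbounded. -/
def MildlyDissipative (c b : ℝ) : Prop :=
  |b| < 1 ∧ ∀ μ : Measure (ℝ × ℝ), IsProbabilityMeasure μ → Ergodic (henonMap c b) μ →
    ¬ SupportedOnSink c b μ →
    ∀ᵐ x ∂μ, ∃ γ : ℝ → ℝ × ℝ, ContDiff ℝ 1 γ ∧ (∀ t, deriv γ t ≠ 0) ∧
      Function.Injective γ ∧ γ 0 = x ∧ range γ = stableSet c b x ∧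
      ¬ Bornology.IsBounded (γ '' Ioi 0) ∧ ¬ Bornology.IsBounded (γ '' Iio 0)

/-- The complex Henon map (real parameters). -/
noncomputable def Fc (c b : ℝ) (p : ℂ × ℂ) : ℂ × ℂ := (p.1 ^ 2 + (c : ℂ) - (b : ℂ) * p.2, p.1)

/-- The inverse of the complex Henon map. -/
noncomputable def Gc (c b : ℝ) (p : ℂ × ℂ) : ℂ × ℂ := (p.2, (p.2 ^ 2 + (c : ℂ) - p.1) / (b : ℂ))

/-- Points with bounded forward orbit. -/
def Kp (c b : ℝ) : Set (ℂ × ℂ) := {p | ∃ R : ℝ, ∀ n : ℕ, ‖(Fc c b)^[n] p‖ ≤ R}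

/-- Points with bounded backward orbit. -/
def Km (c b : ℝ) : Set (ℂ × ℂ) := {p | ∃ R : ℝ, ∀ n : ℕ, ‖(Gc c b)^[n] p‖ ≤ R}

/-- Complex conjugation of both coordinates. -/
noncomputable def cj (p : ℂ × ℂ) : ℂ × ℂ := (star p.1, star p.2)

/-- The complexification of a real point. -/
def cx (p : ℝ × ℝ) : ℂ × ℂ := ((p.1 : ℂ), (p.2 : ℂ))

/-- log plus -/
noncomputable def lp (t : ℝ) : ℝ := max 0 (Real.log t)

/-- an entire curve with the real symmetry -/
structure RealCurve (ψ : ℂ → ℂ × ℂ) : Prop where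
  diff : Differentiable ℂ ψ
  real : ∀ s : ℂ, ψ (star s) = cj (ψ s)

end ME
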