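import Pool.Agent.Lib.MP_904526_an.M4
import Pool.Agent.Lib.MP_904526_E.MB1

/-!
# MB2. The bootstrap, and the stable set is the range of the leaf, when the top exponent is nonnegative
-/

open Set Filter Topology MeasureTheory

namespace ME

open MD

theorem boot0 {D L : ℕ → E →L[ℝ] E} {J Λ : ℝ} {P : E → E} {q : ℝ} (h : Reg D L J Λ)
    (hJ : 0 < J) (hΛ : 0 ≤ Λ) (hχ : Real.log J < Λ) (hq : 0 < q)
    (hPs : ∀ w, ‖P w‖ ≤ q * ‖w‖ ^ 2) (s : E) (hs : ‖s‖ = 1)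
    (hsd : ∀ ε : ℝ, 0 < ε → ∃ C : ℝ, ∀ n : ℕ, ‖Fp D 0 n s‖ ≤ C * wt (Λ - Real.log J - ε) n)
    (w : ℕ → E) (hrec : ∀ i, w i = L i (w (i + 1)) + P (w (i + 1))) (κ C : ℝ) (hκ : 0 < κ)
    (hw : ∀ k, ‖w k‖ ≤ C * wt κ k) (ε₀ : ℝ) (hε₀ : 0 < ε₀) :
    ∃ C' : ℝ, ∀ k, ‖w k‖ ≤ C' * wt (Λ - Real.log J - ε₀) k := by
  have hnn : ∀ {κ' C' : ℝ}, (∀ k, ‖w k‖ ≤ C' * wt κ' k) → 0 ≤ C' := by
    intro κ' C' h'
    have := h' 0
    rw [wt_zero, mul_one] at this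
    exact (norm_nonneg _).trans this
  rcases le_or_gt (Λ - Real.log J - ε₀) κ with hc | hc
  · exact ⟨C, fun k => (hw k).trans (mul_le_mul_of_nonneg_left (wt_mono hc k) (hnn hw))⟩
  set ε : ℝ := min (κ / 20) (min (ε₀ / 4) ((Λ - Real.log J) / 4)) with hεd
  have h1 : ε ≤ κ / 20 := min_le_left _ _
  have h2 : ε ≤ ε₀ / 4 := (min_le_right _ _).trans (min_le_left _ _)
  have h4 : ε ≤ (Λ - Real.log J) / 4 := (min_le_right _ _).trans (min_le_right _ _)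
  have hε : 0 < ε := by
    rw [hεd]
    refine lt_min (by linarith) (lt_min (by linarith) (by linarith))
  have main : ∀ m : ℕ, ∃ C' : ℝ, ∀ k,
      ‖w k‖ ≤ C' * wt (min ((3 / 2 : ℝ) ^ m * κ) (Λ - Real.log J - ε₀)) k := by
    intro m
    induction m with
    | zero =>
      refine ⟨C, fun k => (hw k).trans (mul_le_mul_of_nonneg_left (wt_mono ?_ k) (hnn hw))⟩
      rw [pow_zero, one_mul]
      exact min_le_left _ _
    | succ m ih =>
      obtain ⟨C', hC'⟩ := ih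
      set μ := min ((3 / 2 : ℝ) ^ m * κ) (Λ - Real.log J - ε₀) with hμ
      have hp : (1 : ℝ) ≤ (3 / 2 : ℝ) ^ m := one_le_pow₀ (by norm_num)
      have hμκ : κ ≤ μ := by
        refine le_min ?_ hc.le
        nlinarith
      obtain ⟨C'', hC''⟩ := boot_step0 h hJ hΛ hχ hq hPs s hs hsd w hrec μ C' (by linarith) hC' ε hε
        (by linarith) (by linarith)
      refine ⟨C'', fun k => (hC'' k).trans (mul_le_mul_of_nonneg_left (wt_mono ?_ k) (hnn hC''))⟩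
      have e0 : min ((3 / 2 : ℝ) ^ (m + 1) * κ) (Λ - Real.log J - ε₀) ≤ (3 / 2) * μ := by
        rcases min_choice ((3 / 2 : ℝ) ^ m * κ) (Λ - Real.log J - ε₀) with c | c
        · rw [hμ, c]
          refine (min_le_left _ _).trans ?_
          rw [pow_succ]
          linarith
        · rw [hμ, c]
          refine (min_le_right _ _).trans ?_
          linarith
      have e1 : min ((3 / 2 : ℝ) ^ (m + 1) * κ) (Λ - Real.log J - ε₀) ≤
          Λ - Real.log J - ε₀ := min_le_right _ _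
      refine le_min ?_ ?_
      · linarith
      · linarith
  obtain ⟨m, hm⟩ := pow_unbounded_of_one_lt ((Λ - Real.log J - ε₀) / κ)
    (by norm_num : (1 : ℝ) < 3 / 2)
  obtain ⟨C', hC'⟩ := main m
  refine ⟨C', fun k => ?_⟩
  have := hC' k
  rwa [min_eq_right] at this
  rw [div_lt_iff₀ hκ] at hm
  exact hm.le

variable {g : E ≃ₜ E} {D L : E → E →L[ℝ] E} {P : E → E} {q J M : ℝ} {K : Set E}

theorem leaf_full0 (h : Sys g D L P q J M K) (μ : Measure E) [IsProbabilityMeasure μ]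
    (hg : Ergodic g μ) (hK : μ Kᶜ = 0) (Λ : ℝ) (hΛ : LimExp D g μ Λ) (ε : ℝ) (hε : 0 < ε)
    (hε2 : 5 * ε ≤ Λ - Real.log J) (hε3 : 2 * ε < 2 * Λ - Real.log J) (hpos : 0 ≤ Λ) :
    ∀ᵐ x ∂μ, ∀ y, y ∈ range (leaf D L P g x) ↔
      ∃ κ : ℝ, 0 < κ ∧ ∃ C : ℝ, ∀ k : ℕ, ‖g^[k] y - g^[k] x‖ ≤ C * wt κ k := by
  filter_upwards [leaf_ae h μ hg hK Λ hΛ ε hε hε2 hε3, reg_ae h μ hg hK Λ hΛ,
    sd_ae h μ hg hK Λ hΛ (by linarith) (by linarith)] with x hx hr hs y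
  obtain ⟨hs1, hs2, _⟩ := hs
  rw [hx.rng y]
  constructor
  · rintro ⟨Y, hY⟩
    exact ⟨Λ - Real.log J - ε, by linarith, Y, hY⟩
  · rintro ⟨κ, hκ, C, hC⟩
    exact boot0 hr h.hJ hpos (by linarith) h.hq
      (fun w => by
        have := h.Pl w 0
        rw [h.P0, sub_zero, sub_zero, norm_zero, add_zero] at this
        calc ‖P w‖ ≤ q * ‖w‖ * ‖w‖ := this
          _ = q * ‖w‖ ^ 2 := by ring)
      (Sd D g x) hs1 hs2 (fun k => g^[k] y - g^[k] x) (fun i => orb_rec h x y i) κ C hκ hC ε hε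

end ME
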