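import Pool.Agent.Lib.MP_904526_an.F2
import Pool.Agent.Lib.MP_904526_E.Defs

/-!
# N1. No invariant probability measure for c > 1

With m the mean of the first coordinate, (1 + b) m = mean of x^2 + c.
-/

open Set Filter Topology MeasureTheory

namespace ME

open MD

theorem n1_int (c b : ℝ) (hb : b ≠ 0) (hb1 : |b| < 1) (μ : Measure (ℝ × ℝ))
    [IsProbabilityMeasure μ] (hμ : MeasurePreserving (hen c b hb) μ μ) (φ : ℝ × ℝ → ℝ)
    (hφ : Continuous φ) : Integrable φ μ := by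
  have hK := kk_ae c b hb hb1 μ hμ
  obtain ⟨C, hC⟩ := (kk_compact c b hb).exists_bound_of_continuousOn hφ.continuousOn
  refine Integrable.of_bound hφ.aestronglyMeasurable C ?_
  have : ∀ᵐ x ∂μ, x ∈ KK c b hb := by rw [ae_iff]; exact hK
  filter_upwards [this] with x hx
  exact hC x hx

theorem no_measure (c b : ℝ) (hb : b ≠ 0) (hb1 : |b| < 1) (μ : Measure (ℝ × ℝ))
    [IsProbabilityMeasure μ] (hμ : MeasurePreserving (hen c b hb) μ μ) : c ≤ 1 := by
  have hI := n1_int c b hb hb1 μ hμ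
  have hcomp : ∀ φ : ℝ × ℝ → ℝ, Continuous φ → ∫ x, φ (hen c b hb x) ∂μ = ∫ x, φ x ∂μ := by
    intro φ hφ
    have h1 := hμ.integral_comp' (f := (hen c b hb).toMeasurableEquiv) (g := φ)
    exact h1
  set m : ℝ := ∫ x, x.1 ∂μ with hm
  have h1 : ∫ x, x.2 ∂μ = m := (hcomp (fun x => x.2) continuous_snd).symm
  have h2 : ∫ x, (x.1 ^ 2 + c - b * x.2) ∂μ = m := hcomp (fun x => x.1) continuous_fst
  have i1 : Integrable (fun x : ℝ × ℝ => x.1 ^ 2) μ := hI _ (by fun_prop)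
  have i2 : Integrable (fun x : ℝ × ℝ => b * x.2) μ := hI _ (by fun_prop)
  have i3 : Integrable (fun x : ℝ × ℝ => x.1 ^ 2 + c) μ := hI _ (by fun_prop)
  have i4 : Integrable (fun x : ℝ × ℝ => 2 * m * x.1) μ := hI _ (by fun_prop)
  have h3 : ∫ x, (x.1 ^ 2 + c - b * x.2) ∂μ = ∫ x, x.1 ^ 2 ∂μ + c - b * m := by
    rw [integral_sub i3 i2, integral_add i1 (integrable_const c), integral_const_mul, h1]
    simp
  have h4 : 0 ≤ ∫ x, (x.1 - m) ^ 2 ∂μ := integral_nonneg fun x => sq_nonneg _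
  have h5 : ∫ x, (x.1 - m) ^ 2 ∂μ = ∫ x, x.1 ^ 2 ∂μ - 2 * m * m + m ^ 2 := by
    have : (fun x : ℝ × ℝ => (x.1 - m) ^ 2) = fun x => x.1 ^ 2 - 2 * m * x.1 + m ^ 2 := by
      funext x; ring
    have i5 : Integrable (fun x : ℝ × ℝ => x.1 ^ 2 - 2 * m * x.1) μ := i1.sub i4
    rw [this, integral_add i5 (integrable_const _), integral_sub i1 i4,
      integral_const_mul, ← hm]
    simp
  have hb2 := abs_lt.mp hb1
  nlinarith [sq_nonneg (2 * m - (1 + b))]

end ME
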