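import Pool.Agent.Lib.MP_904526_an.F2
import Pool.Agent.Lib.MP_904526_an.C2
import Pool.Agent.Lib.MP_904526_E.Defs

/-!
# N2. For c < -14 and |b| < 3/4 the top exponent is at least log 3

On the compact invariant set: x^2 >= |c| - (1+|b|) S, where S = max |x|, S^2 <= |c| + (1+|b|) S, so
|x| >= 2; the horizontal cone is expanded by 3.
-/

open Set Filter Topology MeasureTheory

namespace ME

open MD

theorem n2_two (c b : ℝ) (hb : b ≠ 0) (hb1 : |b| < 3 / 4) (hc : c < -14) (x : ℝ × ℝ)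
    (hx : x ∈ KK c b hb) : 2 ≤ |x.1| := by
  obtain ⟨y, hy, hmax⟩ := (kk_compact c b hb).exists_isMaxOn ⟨x, hx⟩
    (continuous_fst.abs.continuousOn)
  have hS : ∀ z ∈ KK c b hb, |z.1| ≤ |y.1| := fun z hz => hmax hz
  set S : ℝ := |y.1| with hSdef
  have hS0 : 0 ≤ S := abs_nonneg _
  -- the identity x₁² = f(x)₁ - c + b x₂
  have key : ∀ z ∈ KK c b hb, |z.1 ^ 2 + c| ≤ (1 + 3 / 4) * S := by
    intro z hz
    have h1 := hS _ ((kk_inv c b hb z).2 hz)
    have h2 : (hen c b hb).symm z ∈ KK c b hb := by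
      rw [← kk_inv c b hb, Homeomorph.apply_symm_apply]; exact hz
    have h3 := hS _ h2
    rw [hen_symm_apply] at h3
    rw [hen_apply] at h1
    simp only at h1 h3
    have h4 : |b * z.2| ≤ 3 / 4 * S := by
      rw [abs_mul]
      exact mul_le_mul hb1.le h3 (abs_nonneg _) (by norm_num)
    have h5 : z.1 ^ 2 + c = (z.1 ^ 2 + c - b * z.2) + b * z.2 := by ring
    rw [h5]
    refine (abs_add_le _ _).trans ?_
    linarith
  have h1 := abs_le.mp (key y hy)
  have h2 := abs_le.mp (key x hx)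
  have hy2 : y.1 ^ 2 = S ^ 2 := by rw [hSdef, sq_abs]
  rw [hy2] at h1
  by_contra hcon
  push Not at hcon
  have h3 : x.1 ^ 2 < 4 := by
    rw [← sq_abs]
    nlinarith [abs_nonneg x.1]
  nlinarith

theorem n2_cone (c b : ℝ) (hb : b ≠ 0) (hb1 : |b| < 3 / 4) (hc : c < -14) (x : ℝ × ℝ)
    (hx : x ∈ KK c b hb) (n : ℕ) :
    |(coc (Dh b) (hen c b hb) n x (1, 0)).2| ≤ |(coc (Dh b) (hen c b hb) n x (1, 0)).1| ∧
      3 ^ n ≤ |(coc (Dh b) (hen c b hb) n x (1, 0)).1| := by
  induction n with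
  | zero => rw [coc_zero]; simp
  | succ n ih =>
    rw [coc_succ]
    obtain ⟨ih1, ih2⟩ := ih
    set v := coc (Dh b) (hen c b hb) n x (1, 0) with hv
    have hmem : (hen c b hb)^[n] x ∈ KK c b hb := by
      have : ∀ k : ℕ, (hen c b hb)^[k] x ∈ KK c b hb := by
        intro k
        induction k with
        | zero => exact hx
        | succ k ihk =>
          rw [Function.iterate_succ_apply']
          exact (kk_inv c b hb _).2 ihk
      exact this n
    have h2 := n2_two c b hb hb1 hc _ hmem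
    set z := (hen c b hb)^[n] x with hz
    have hval : ((Dh b z).comp (coc (Dh b) (hen c b hb) n x)) (1, 0) =
        ((2 * z.1 * v.1 - b * v.2, v.1) : ℝ × ℝ) := by
      rw [ContinuousLinearMap.comp_apply, Dh_apply]
    rw [hval]
    simp only
    have h3 : 4 * |v.1| ≤ |2 * z.1 * v.1| := by
      rw [abs_mul, abs_mul, abs_two]
      nlinarith [abs_nonneg v.1]
    have h4 : |b * v.2| ≤ 3 / 4 * |v.1| := by
      rw [abs_mul]
      exact mul_le_mul hb1.le ih1 (abs_nonneg _) (by norm_num)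
    have h5 : |2 * z.1 * v.1| - |b * v.2| ≤ |2 * z.1 * v.1 - b * v.2| := abs_sub_abs_le_abs_sub _ _
    have h6 : 3 * |v.1| ≤ |2 * z.1 * v.1 - b * v.2| := by
      nlinarith [abs_nonneg v.1]
    refine ⟨?_, ?_⟩
    · nlinarith [abs_nonneg v.1]
    · rw [pow_succ]; nlinarith

theorem c14 (c b : ℝ) (hb : b ≠ 0) (hb1 : |b| < 3 / 4) (hc : c < -14) (μ : Measure (ℝ × ℝ))
    [IsProbabilityMeasure μ] (hμ : MeasurePreserving (hen c b hb) μ μ) (Λ : ℝ)
    (hΛ : LimExp (Dh b) (hen c b hb) μ Λ) : Real.log 3 ≤ Λ := by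
  have hK := kk_ae c b hb (by linarith) μ hμ
  obtain ⟨M, h⟩ := hen_sys c b hb
  refine ge_of_tendsto hΛ ?_
  filter_upwards [eventually_ge_atTop 1] with n hn
  have hn' : (0 : ℝ) < n := by exact_mod_cast hn
  rw [le_div_iff₀ hn']
  have hae : ∀ᵐ x ∂μ, Real.log 3 * n ≤ uu (Dh b) (hen c b hb) n x := by
    have : ∀ᵐ x ∂μ, x ∈ KK c b hb := by rw [ae_iff]; exact hK
    filter_upwards [this] with x hx
    have h1 := (n2_cone c b hb hb1 hc x hx n).2
    have h2 : (3 : ℝ) ^ n ≤ ‖coc (Dh b) (hen c b hb) n x‖ := by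
      refine h1.trans ?_
      have h3 := (coc (Dh b) (hen c b hb) n x).le_opNorm (1, 0)
      have h4 : ‖((1, 0) : ℝ × ℝ)‖ = 1 := by simp [Prod.norm_def]
      rw [h4, mul_one] at h3
      refine le_trans ?_ h3
      exact norm_fst_le (coc (Dh b) (hen c b hb) n x (1, 0))
    unfold uu
    rw [mul_comm, ← Real.log_pow]
    exact Real.log_le_log (by positivity) h2
  have h5 : ∫ _x, Real.log 3 * n ∂μ ≤ ∫ x, uu (Dh b) (hen c b hb) n x ∂μ :=
    integral_mono_ae (integrable_const _) (uu_int h μ hK n) hae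
  simpa using h5

end ME
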