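import Pool.Agent.Lib.MP_904526_an.C3
import Pool.Agent.Lib.MP_904526_an.F2
import Pool.Agent.Lib.MP_904526_E.Defs

/-!
# N3. A negative top exponent: the measure is supported on a sink

A regular point x has a ball contracted by all forward iterates (variation of constants). If x is
recurrent, some iterate maps this ball into itself and is a contraction there, so there is a periodic
point p in the ball; a recurrent point of the ball lies in the orbit of p. So x itself is periodic and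
its orbit has positive, hence full, measure.
-/

open Set Filter Topology MeasureTheory

namespace ME

open MD

theorem n3_var (D : ℕ → E →L[ℝ] E) (e : ℕ → E) (k : ℕ) :
    e k = Fp D 0 k (e 0) +
      ∑ j ∈ Finset.range k, Fp D (j + 1) (k - 1 - j) (e (j + 1) - D j (e j)) := by
  induction k with
  | zero => simp [Fp]
  | succ k ih =>
    have h1 : Fp D 0 (k + 1) (e 0) = D k (Fp D 0 k (e 0)) := by
      show (D (0 + k)).comp (Fp D 0 k) (e 0) = _
      rw [zero_add]; rfl
    have h2 : ∑ j ∈ Finset.range (k + 1), Fp D (j + 1) (k + 1 - 1 - j) (e (j + 1) - D j (e j)) =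
        D k (∑ j ∈ Finset.range k, Fp D (j + 1) (k - 1 - j) (e (j + 1) - D j (e j))) +
          (e (k + 1) - D k (e k)) := by
      rw [Finset.sum_range_succ, map_sum]
      congr 1
      · refine Finset.sum_congr rfl fun j hj => ?_
        rw [Finset.mem_range] at hj
        have e1 : k + 1 - 1 - j = (k - 1 - j) + 1 := by omega
        rw [e1]
        show (D (j + 1 + (k - 1 - j))).comp (Fp D (j + 1) (k - 1 - j)) _ = _
        have e2 : j + 1 + (k - 1 - j) = k := by omega
        rw [e2]; rfl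
      · have e1 : k + 1 - 1 - k = 0 := by omega
        rw [e1]; rfl
    rw [h1, h2]
    have h3 : D k (e k) = D k (Fp D 0 k (e 0)) +
        D k (∑ j ∈ Finset.range k, Fp D (j + 1) (k - 1 - j) (e (j + 1) - D j (e j))) := by
      rw [← map_add, ← ih]
    rw [← add_assoc, ← h3]
    abel

theorem n3_bd (D : ℕ → E →L[ℝ] E) (e : ℕ → E) (C κ r : ℝ) (hC : 1 ≤ C) (hκ : 0 < κ) (hr : 0 ≤ r)
    (hF : ∀ n k : ℕ, ‖Fp D n k‖ ≤ C * Real.exp (-(3 * κ) * k + κ * n))
    (hsm : 8 * C ^ 2 * r * Real.exp (4 * κ) ≤ 1 - Real.exp (-(2 * κ))) :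
    ∀ k : ℕ, (∀ j < k, ‖e (j + 1) - D j (e j)‖ ≤ 4 * C * r * Real.exp (-(3 * κ) * j) * ‖e j‖) →
      ‖e k‖ ≤ 2 * C * Real.exp (-(3 * κ) * k) * ‖e 0‖ := by
  intro k
  induction k using Nat.strong_induction_on with
  | _ k ih =>
    intro h
    have hj : ∀ j < k, ‖e j‖ ≤ 2 * C * Real.exp (-(3 * κ) * j) * ‖e 0‖ := fun j hj =>
      ih j hj fun i hi => h i (hi.trans hj)
    have hC0 : 0 < C := by linarith
    have hterm : ∀ j ∈ Finset.range k,
        ‖Fp D (j + 1) (k - 1 - j) (e (j + 1) - D j (e j))‖ ≤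
          8 * C ^ 3 * r * Real.exp (4 * κ) * Real.exp (-(3 * κ) * k) * ‖e 0‖ *
            Real.exp (-(2 * κ)) ^ j := by
      intro j hjm
      rw [Finset.mem_range] at hjm
      have h1 := (Fp D (j + 1) (k - 1 - j)).le_opNorm (e (j + 1) - D j (e j))
      have h2 := hF (j + 1) (k - 1 - j)
      have h3 := h j hjm
      have h4 := hj j hjm
      have hcast : ((k - 1 - j : ℕ) : ℝ) = (k : ℝ) - 1 - j := by
        have : k - 1 - j + (1 + j) = k := by omega
        have : ((k - 1 - j : ℕ) : ℝ) + (1 + j) = k := by exact_mod_cast this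
        linarith
      have hcast' : ((j + 1 : ℕ) : ℝ) = (j : ℝ) + 1 := by push_cast; ring
      rw [hcast, hcast'] at h2
      calc ‖Fp D (j + 1) (k - 1 - j) (e (j + 1) - D j (e j))‖
          ≤ ‖Fp D (j + 1) (k - 1 - j)‖ * ‖e (j + 1) - D j (e j)‖ := h1
        _ ≤ (C * Real.exp (-(3 * κ) * ((k : ℝ) - 1 - j) + κ * ((j : ℝ) + 1))) *
              (4 * C * r * Real.exp (-(3 * κ) * j) *
                (2 * C * Real.exp (-(3 * κ) * j) * ‖e 0‖)) := by
            refine mul_le_mul h2 (h3.trans ?_) (norm_nonneg _) (by positivity)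
            exact mul_le_mul_of_nonneg_left h4 (by positivity)
        _ = 8 * C ^ 3 * r * ‖e 0‖ *
              (Real.exp (-(3 * κ) * ((k : ℝ) - 1 - j) + κ * ((j : ℝ) + 1)) *
                Real.exp (-(3 * κ) * j) * Real.exp (-(3 * κ) * j)) := by ring
        _ = 8 * C ^ 3 * r * ‖e 0‖ *
              (Real.exp (4 * κ) * Real.exp (-(3 * κ) * k) * Real.exp (-(2 * κ)) ^ j) := by
            rw [← Real.exp_nat_mul, ← Real.exp_add, ← Real.exp_add, ← Real.exp_add,
              ← Real.exp_add]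
            congr 2
            ring
        _ = _ := by ring
    have hx0 : 0 < 1 - Real.exp (-(2 * κ)) := by
      have : Real.exp (-(2 * κ)) < 1 := by
        rw [Real.exp_lt_one_iff]; linarith
      linarith
    have hgeo : ∑ j ∈ Finset.range k, Real.exp (-(2 * κ)) ^ j ≤ 1 / (1 - Real.exp (-(2 * κ))) := by
      rw [le_div_iff₀ hx0, geom_sum_mul_neg]
      have := pow_pos (Real.exp_pos (-(2 * κ))) k
      linarith
    rw [n3_var D e k]
    refine (norm_add_le _ _).trans ?_
    have h5 : ‖Fp D 0 k (e 0)‖ ≤ C * Real.exp (-(3 * κ) * k) * ‖e 0‖ := by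
      refine ((Fp D 0 k).le_opNorm _).trans ?_
      have := hF 0 k
      simp only [Nat.cast_zero, mul_zero, add_zero] at this
      exact mul_le_mul_of_nonneg_right this (norm_nonneg _)
    have h6 : ‖∑ j ∈ Finset.range k, Fp D (j + 1) (k - 1 - j) (e (j + 1) - D j (e j))‖ ≤
        C * Real.exp (-(3 * κ) * k) * ‖e 0‖ := by
      refine (norm_sum_le _ _).trans ((Finset.sum_le_sum hterm).trans ?_)
      rw [← Finset.mul_sum]
      have hA : 0 ≤ 8 * C ^ 3 * r * Real.exp (4 * κ) * Real.exp (-(3 * κ) * k) * ‖e 0‖ := by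
        positivity
      refine (mul_le_mul_of_nonneg_left hgeo hA).trans ?_
      rw [mul_one_div, div_le_iff₀ hx0]
      have hB : 0 ≤ C * Real.exp (-(3 * κ) * k) * ‖e 0‖ := by positivity
      have := mul_le_mul_of_nonneg_left hsm hB
      calc 8 * C ^ 3 * r * Real.exp (4 * κ) * Real.exp (-(3 * κ) * k) * ‖e 0‖
          = C * Real.exp (-(3 * κ) * k) * ‖e 0‖ * (8 * C ^ 2 * r * Real.exp (4 * κ)) := by ring
        _ ≤ _ := this
    linarith

theorem n3_step (c b : ℝ) (hb : b ≠ 0) (y w : E) :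
    hen c b hb (y + w) - hen c b hb y - Dh b y w = ((w.1 ^ 2, 0) : E) := by
  rw [hen_apply, hen_apply, Dh_apply]
  ext
  · simp only [Prod.fst_add, Prod.snd_add, Prod.fst_sub]
    ring
  · simp

theorem n3_contr (c b : ℝ) (hb : b ≠ 0) (x : E) (Λ : ℝ) (hΛ : Λ < 0)
    (hx : Reg (fun k => Dh b ((hen c b hb)^[k] x)) (fun k => Lh b ((hen c b hb)^[k] x)) |b| Λ) :
    ∃ r C κ : ℝ, 0 < r ∧ 0 < C ∧ 0 < κ ∧
      (∀ n : ℕ, ‖coc (Dh b) (hen c b hb) n x‖ ≤ C * Real.exp (-κ * n)) ∧
      ∀ y y' : E, ‖y - x‖ ≤ r → ‖y' - x‖ ≤ r → ∀ n : ℕ,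
        ‖(hen c b hb)^[n] y - (hen c b hb)^[n] y'‖ ≤ C * Real.exp (-κ * n) * ‖y - y'‖ := by
  set f := hen c b hb with hf
  set D : ℕ → E →L[ℝ] E := fun k => Dh b (f^[k] x) with hD
  obtain ⟨C0, hC0⟩ := hx.up (-Λ / 4) (by linarith)
  set κ : ℝ := -Λ / 4 with hκd
  have hκ : 0 < κ := by rw [hκd]; linarith
  set C : ℝ := max 1 C0 with hCd
  have hC1 : 1 ≤ C := le_max_left _ _
  have hF : ∀ n k : ℕ, ‖Fp D n k‖ ≤ C * Real.exp (-(3 * κ) * k + κ * n) := by
    intro n k
    refine (hC0 n k).trans ?_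
    have e1 : (Λ + κ) * k + κ * n = -(3 * κ) * k + κ * n := by
      have : Λ = -(4 * κ) := by rw [hκd]; ring
      rw [this]; ring
    rw [e1]
    exact mul_le_mul_of_nonneg_right (le_max_right _ _) (Real.exp_pos _).le
  have hx0 : 0 < 1 - Real.exp (-(2 * κ)) := by
    have : Real.exp (-(2 * κ)) < 1 := by
      rw [Real.exp_lt_one_iff]; linarith
    linarith
  set r : ℝ := (1 - Real.exp (-(2 * κ))) / (8 * C ^ 2 * Real.exp (4 * κ)) with hrd
  have hr : 0 < r := by positivity
  have hsm : 8 * C ^ 2 * r * Real.exp (4 * κ) ≤ 1 - Real.exp (-(2 * κ)) := by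
    rw [hrd]
    apply le_of_eq
    field_simp
  have key : ∀ y : E, ‖y - x‖ ≤ r → ∀ k : ℕ,
      ‖f^[k] y - f^[k] x‖ ≤ 2 * C * Real.exp (-(3 * κ) * k) * ‖y - x‖ := by
    intro y hy k
    induction k using Nat.strong_induction_on with
    | _ k ih =>
      refine n3_bd D (fun k => f^[k] y - f^[k] x) C κ r hC1 hκ hr.le hF hsm k ?_
      intro j hj
      have h1 := n3_step c b hb (f^[j] x) (f^[j] y - f^[j] x)
      rw [add_sub_cancel] at h1
      show ‖f^[j + 1] y - f^[j + 1] x - D j (f^[j] y - f^[j] x)‖ ≤ _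
      rw [Function.iterate_succ_apply', Function.iterate_succ_apply']
      rw [h1]
      have h2 := ih j hj
      set d := f^[j] y - f^[j] x with hd
      have h3 : ‖((d.1 ^ 2, 0) : E)‖ ≤ ‖d‖ * ‖d‖ := by
        rw [Prod.norm_mk, norm_zero, max_eq_left (norm_nonneg _), Real.norm_eq_abs, abs_pow,
          pow_two]
        have := norm_fst_le d
        rw [Real.norm_eq_abs] at this
        exact mul_le_mul this this (abs_nonneg _) (norm_nonneg _)
      refine h3.trans (mul_le_mul_of_nonneg_right ?_ (norm_nonneg _))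
      refine h2.trans ?_
      have h4 : 0 ≤ C * Real.exp (-(3 * κ) * j) := by positivity
      nlinarith [norm_nonneg (y - x), mul_nonneg h4 hr.le,
        mul_le_mul_of_nonneg_left hy h4]
  refine ⟨r, 2 * C, 3 * κ, hr, by linarith, by linarith, ?_, ?_⟩
  · intro n
    have := hF 0 n
    simp only [Nat.cast_zero, mul_zero, add_zero] at this
    refine this.trans ?_
    have h4 : 0 ≤ C * Real.exp (-(3 * κ) * n) := by positivity
    linarith
  · intro y y' hy hy' n
    refine n3_bd D (fun k => f^[k] y - f^[k] y') C κ r hC1 hκ hr.le hF hsm n ?_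
    intro j _
    have h1 := n3_step c b hb (f^[j] x) (f^[j] y - f^[j] x)
    have h1' := n3_step c b hb (f^[j] x) (f^[j] y' - f^[j] x)
    rw [add_sub_cancel] at h1 h1'
    show ‖f^[j + 1] y - f^[j + 1] y' - D j (f^[j] y - f^[j] y')‖ ≤ _
    rw [Function.iterate_succ_apply', Function.iterate_succ_apply']
    have k1 := key y hy j
    have k2 := key y' hy' j
    set d := f^[j] y - f^[j] x with hd
    set d' := f^[j] y' - f^[j] x with hd'
    have h5 : f^[j] y - f^[j] y' = d - d' := by rw [hd, hd']; abel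
    have h6 : f (f^[j] y) - f (f^[j] y') - D j (f^[j] y - f^[j] y') =
        ((d.1 ^ 2, 0) : E) - ((d'.1 ^ 2, 0) : E) := by
      rw [← h1, ← h1', h5, map_sub]
      show _ = (f (f^[j] y) - f (f^[j] x) - D j d) - (f (f^[j] y') - f (f^[j] x) - D j d')
      abel
    rw [h6, h5]
    have h7 : ‖((d.1 ^ 2, 0) : E) - ((d'.1 ^ 2, 0) : E)‖ ≤ (‖d‖ + ‖d'‖) * ‖d - d'‖ := by
      have e1 : ((d.1 ^ 2, 0) : E) - ((d'.1 ^ 2, 0) : E) = ((d.1 ^ 2 - d'.1 ^ 2, 0) : E) := by
        ext <;> simp
      rw [e1, Prod.norm_mk, norm_zero, max_eq_left (norm_nonneg _), Real.norm_eq_abs]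
      have g1 := sq_lip d.1 d'.1
      have g2 : |d.1| ≤ ‖d‖ := norm_fst_le d
      have g3 : |d'.1| ≤ ‖d'‖ := norm_fst_le d'
      have g4 : |d.1 - d'.1| ≤ ‖d - d'‖ := norm_fst_le (d - d')
      exact g1.trans (mul_le_mul (add_le_add g2 g3) g4 (abs_nonneg _) (by positivity))
    refine h7.trans (mul_le_mul_of_nonneg_right ?_ (norm_nonneg _))
    have h4 : 0 ≤ C * Real.exp (-(3 * κ) * j) := by positivity
    nlinarith [mul_le_mul_of_nonneg_left hy h4, mul_le_mul_of_nonneg_left hy' h4]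

theorem n3_orbit (f : E → E) (p : E) (n : ℕ) (hn : 0 < n) (hp : f^[n] p = p) :
    {q | ∃ k : ℕ, q = f^[k] p}.Finite := by
  refine (Set.finite_Iio n).image (fun k => f^[k] p) |>.subset ?_
  rintro q ⟨k, rfl⟩
  refine ⟨k % n, Nat.mod_lt _ hn, ?_⟩
  have hper : Function.IsPeriodicPt f n p := hp
  exact hper.iterate_mod_apply k

theorem sink (c b : ℝ) (hb : b ≠ 0) (hb1 : |b| < 1) (μ : Measure (ℝ × ℝ))
    [IsProbabilityMeasure μ] (hμ : Ergodic (hen c b hb) μ) (Λ : ℝ)
    (hΛ : LimExp (Dh b) (hen c b hb) μ Λ) (hneg : Λ < 0) : SupportedOnSink c b μ := by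
  set f := hen c b hb with hf
  have hfp : MeasurePreserving f μ μ := hμ.toMeasurePreserving
  obtain ⟨M, h⟩ := hen_sys c b hb
  have hK := kk_ae c b hb hb1 μ hfp
  have hreg := reg_ae h μ hμ hK Λ hΛ
  have hrec := hfp.conservative.ae_frequently_mem_of_mem_nhds
  set S : Set E := {x | Reg (fun k => Dh b (f^[k] x)) (fun k => Lh b (f^[k] x)) |b| Λ ∧
    ∀ s ∈ 𝓝 x, ∃ᶠ n in atTop, f^[n] x ∈ s} with hS
  have hSae : ∀ᵐ x ∂μ, x ∈ S := by
    filter_upwards [hreg, hrec] with x h1 h2
    exact ⟨h1, h2⟩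
  have hS0 : μ S ≠ 0 := by
    intro h0
    have h1 : μ Sᶜ = 0 := by rwa [ae_iff] at hSae
    have h2 : μ (S ∪ Sᶜ) ≤ 0 := (measure_union_le _ _).trans (by rw [h0, h1, add_zero])
    rw [union_compl_self, measure_univ] at h2
    exact absurd h2 (by norm_num)
  obtain ⟨x, hxS, hpos⟩ := exists_mem_forall_mem_nhdsWithin_pos_measure hS0
  obtain ⟨r, C, κ, hr, hC, hκ, hcoc, hcon⟩ := n3_contr c b hb x Λ hneg hxS.1
  have hlim : Tendsto (fun n : ℕ => C * Real.exp (-κ * n)) atTop (𝓝 0) := by
    have h1 : Tendsto (fun n : ℕ => -κ * (n : ℝ)) atTop atBot :=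
      tendsto_natCast_atTop_atTop.const_mul_atTop_of_neg (by linarith)
    simpa using (Real.tendsto_exp_atBot.comp h1).const_mul C
  -- recurrent points of the ball are in the orbit of any periodic point of the ball
  have claim : ∀ (z : E) (n : ℕ), ‖z - x‖ ≤ r → 0 < n → f^[n] z = z → ∀ y ∈ S, ‖y - x‖ ≤ r →
      ∃ k : ℕ, y = f^[k] z := by
    intro z n hz hn hper y hy hyr
    have hfin := n3_orbit f z n hn hper
    have hcl : y ∈ closure {q | ∃ k : ℕ, q = f^[k] z} := by
      rw [Metric.mem_closure_iff]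
      intro ε hε
      have h1 := hy.2 (Metric.ball y (ε / 2)) (Metric.ball_mem_nhds y (by linarith))
      have h2 : ∀ᶠ k : ℕ in atTop, C * Real.exp (-κ * k) * ‖y - z‖ < ε / 2 := by
        have := hlim.mul_const ‖y - z‖
        rw [zero_mul] at this
        exact this.eventually (gt_mem_nhds (by linarith))
      obtain ⟨k, hk1, hk2⟩ := (h1.and_eventually h2).exists
      refine ⟨f^[k] z, ⟨k, rfl⟩, ?_⟩
      have h3 := hcon y z hyr hz k
      rw [Metric.mem_ball] at hk1
      calc dist y (f^[k] z) ≤ dist y (f^[k] y) + dist (f^[k] y) (f^[k] z) := dist_triangle _ _ _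
        _ < ε / 2 + ε / 2 := by
            refine add_lt_add (by rwa [dist_comm]) ?_
            rw [dist_eq_norm]
            exact lt_of_le_of_lt h3 hk2
        _ = ε := by ring
    rw [hfin.isClosed.closure_eq] at hcl
    exact hcl
  -- a return time
  have h1 := hxS.2 (Metric.closedBall x (r / 4)) (Metric.closedBall_mem_nhds x (by linarith))
  have h2 : ∀ᶠ n : ℕ in atTop, C * Real.exp (-κ * n) < 1 / 4 :=
    hlim.eventually (gt_mem_nhds (by norm_num))
  obtain ⟨n, ⟨hn1, hn2⟩, hn3⟩ := ((h1.and_eventually h2).and_eventually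
    (eventually_gt_atTop 0)).exists
  rw [Metric.mem_closedBall, dist_eq_norm] at hn1
  -- a fixed point of f^[n]
  have hmaps : MapsTo f^[n] (Metric.closedBall x r) (Metric.closedBall x r) := by
    intro y hy
    rw [Metric.mem_closedBall, dist_eq_norm] at hy ⊢
    have h3 := hcon y x hy (by simpa using hr.le) n
    have h4 : f^[n] y - x = (f^[n] y - f^[n] x) + (f^[n] x - x) := by abel
    rw [h4]
    refine (norm_add_le _ _).trans ?_
    nlinarith [norm_nonneg (y - x)]
  have hcontr : ContractingWith (1 / 4 : NNReal)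
      (hmaps.restrict f^[n] (Metric.closedBall x r) (Metric.closedBall x r)) := by
    refine ⟨by
      rw [← NNReal.coe_lt_coe]; norm_num, ?_⟩
    refine LipschitzWith.of_dist_le_mul ?_
    rintro ⟨y, hy⟩ ⟨y', hy'⟩
    rw [Metric.mem_closedBall, dist_eq_norm] at hy hy'
    show dist (f^[n] y) (f^[n] y') ≤ ((1 / 4 : NNReal) : ℝ) * dist y y'
    rw [dist_eq_norm, dist_eq_norm]
    refine (hcon y y' hy hy' n).trans (mul_le_mul_of_nonneg_right ?_ (norm_nonneg _))
    push_cast
    exact hn2.le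
  obtain ⟨p, hp1, hp2, -⟩ := ContractingWith.exists_fixedPoint'
    (Metric.isClosed_closedBall (x := x) (ε := r)).isComplete hmaps hcontr
    (Metric.mem_closedBall_self hr.le) (edist_ne_top _ _)
  rw [Metric.mem_closedBall, dist_eq_norm] at hp1
  obtain ⟨k, hk⟩ := claim p n hp1 hn3 hp2 x hxS (by simpa using hr.le)
  have hxper : f^[n] x = x := by
    have h3 : f^[n] (f^[k] p) = f^[k] (f^[n] p) := by
      rw [← Function.iterate_add_apply, ← Function.iterate_add_apply, add_comm]
    rw [hk, h3]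
    have : f^[n] p = p := hp2
    rw [this]
  refine ⟨x, n, hn3, hxper, ?_, ?_⟩
  · have h3 : fderiv ℝ ((henonMap c b)^[n]) x = coc (Dh b) f n x := henon_fderiv c b hb n x
    rw [h3]
    exact lt_of_le_of_lt (hcoc n) (by linarith)
  · set O : Set E := {q | ∃ k : ℕ, q = f^[k] x} with hO
    have hfin : O.Finite := n3_orbit f x n hn3 hxper
    have hOm : MeasurableSet O := hfin.measurableSet
    have hOinv : f ⁻¹' O = O := by
      ext y
      constructor
      · rintro ⟨k, hk⟩
        cases k with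
        | zero =>
          refine ⟨n - 1, f.injective ?_⟩
          rw [hk, ← Function.iterate_succ_apply' (f := f), Nat.succ_eq_add_one,
            Nat.sub_add_cancel hn3, hxper]
          rfl
        | succ k =>
          refine ⟨k, f.injective ?_⟩
          rw [hk, Function.iterate_succ_apply']
      · rintro ⟨k, rfl⟩
        exact ⟨k + 1, (Function.iterate_succ_apply' _ _ _).symm⟩
    have hOpos : 0 < μ O := by
      have h3 : S ∩ Metric.closedBall x r ∈ 𝓝[S] x := by
        rw [inter_comm]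
        exact inter_mem (mem_nhdsWithin_of_mem_nhds (Metric.closedBall_mem_nhds x hr))
          self_mem_nhdsWithin
      refine lt_of_lt_of_le (hpos _ h3) (measure_mono ?_)
      rintro y ⟨hy1, hy2⟩
      rw [Metric.mem_closedBall, dist_eq_norm] at hy2
      exact claim x n (by simpa using hr.le) hn3 hxper y hy1 hy2
    rcases hμ.toPreErgodic.prob_eq_zero_or_one hOm hOinv with h3 | h3
    · exact absurd h3 hOpos.ne'
    · exact h3

end ME
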