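import Pool.Agent.Lib.MP_904526_E.MC7
import Pool.Agent.Lib.MP_904526_E.MB2
import Pool.Agent.Lib.MP_904526_E.N1
import Pool.Agent.Lib.MP_904526_E.N2
import Pool.Agent.Lib.MP_904526_E.N3
import Pool.Agent.Lib.MP_904526_an.G1
import Pool.Agent.Lib.MP_904526_an.N3

/-!
# MM. The measure part
-/

open Set Filter Topology MeasureTheory

namespace ME

open MD (E wt LimExp coc Sd leaf Dh Lh Ph hen Tame KK KM)

theorem mm_Gc_cx (c b : ℝ) (hb : b ≠ 0) (y : E) (n : ℕ) :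
    (Gc c b)^[n] (cx y) = cx ((hen c b hb).symm^[n] y) := by
  induction n with
  | zero => rfl
  | succ n ih =>
    rw [Function.iterate_succ_apply', Function.iterate_succ_apply', ih, MD.hen_symm_apply]
    ext
    · simp [Gc, cx]
    · simp [Gc, cx]

theorem mm_km (c b : ℝ) (hb : b ≠ 0) (y : E) (R : ℝ)
    (h : ∀ n : ℕ, ‖(hen c b hb).symm^[n] y‖ ≤ R) : cx y ∈ Km c b :=
  ⟨R, fun n => by rw [mm_Gc_cx c b hb, cx_norm]; exact h n⟩

/-- THEOREM M (part 3): the measure part. Λ is the top exponent. -/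
theorem measure_part (c b : ℝ) (hb0 : b ≠ 0) (hb1 : |b| < 1) (μ : Measure (ℝ × ℝ))
    (hp : IsProbabilityMeasure μ) (hμ : Ergodic (henonMap c b) μ) (hs : ¬ SupportedOnSink c b μ) :
    c ≤ 1 ∧ ∃ Λ : ℝ, 0 ≤ Λ ∧ (c < -14 → |b| < 3 / 4 → Real.log 3 ≤ Λ) ∧
    ∀ᵐ x ∂μ, ∃ γ : ℝ → ℝ × ℝ, ContDiff ℝ 1 γ ∧ (∀ t, deriv γ t ≠ 0) ∧
      Function.Injective γ ∧ γ 0 = x ∧ range γ = stableSet c b x ∧
      (Bornology.IsBounded (γ '' Ioi 0) → ∀ t : ℝ, 0 ≤ t → cx (γ t) ∈ Km c b) ∧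
      (Bornology.IsBounded (γ '' Iio 0) → ∀ t : ℝ, t ≤ 0 → cx (γ t) ∈ Km c b) ∧
      ∃ ψ : ℂ → ℂ × ℂ, RealCurve ψ ∧ (∀ t : ℝ, ψ (t : ℂ) = cx (γ t)) ∧ (∀ s, ψ s ∈ Kp c b) ∧
        ∀ a : ℝ, Real.log 2 / (Λ + Real.log (1 / |b|)) < a →
          ∃ C : ℝ, ∀ s : ℂ, lp ‖ψ s‖ ≤ C * (1 + ‖s‖) ^ a := by
  set f : E ≃ₜ E := hen c b hb0 with hf
  have hfe : Ergodic f μ := hμ
  have hfp : MeasurePreserving f μ μ := hfe.toMeasurePreserving
  obtain ⟨M, h⟩ := MD.hen_sys c b hb0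
  rw [← hf] at h
  have hK : μ (KK c b hb0)ᶜ = 0 := MD.kk_ae c b hb0 hb1 μ hfp
  have habs : 0 < |b| := abs_pos.mpr hb0
  have hlog : Real.log |b| < 0 := Real.log_neg habs hb1
  have hc1 : c ≤ 1 := no_measure c b hb0 hb1 μ hfp
  obtain ⟨Λ, -, hΛ⟩ := MD.limExp_exists h μ hfp hK (-Real.log M) (fun n _ => by
    have := MD.c2_bd h μ hK n
    have := neg_le_of_abs_le this
    linarith)
  have hΛ0 : 0 ≤ Λ := by
    by_contra hneg
    exact hs (sink c b hb0 hb1 μ hfe Λ hΛ (not_le.1 hneg))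
  refine ⟨hc1, Λ, hΛ0, fun hc hb3 => c14 c b hb0 hb3 hc μ hfp Λ hΛ, ?_⟩
  set χ : ℝ := Λ - Real.log |b| with hχ
  have hχ0 : 0 < χ := by rw [hχ]; linarith
  have hεp : ∀ m : ℕ, 0 < χ / (10 * ((m : ℝ) + 1)) := fun m => by positivity
  have hεle : ∀ m : ℕ, χ / (10 * ((m : ℝ) + 1)) ≤ χ / 10 := fun m => by
    apply div_le_div_of_nonneg_left hχ0.le (by norm_num)
    have : (0 : ℝ) ≤ m := Nat.cast_nonneg m
    linarith
  have hε2 : ∀ m : ℕ, 5 * (χ / (10 * ((m : ℝ) + 1))) ≤ Λ - Real.log |b| := fun m => by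
    have := hεle m
    rw [← hχ]
    linarith
  have hε3 : ∀ m : ℕ, 2 * (χ / (10 * ((m : ℝ) + 1))) < 2 * Λ - Real.log |b| := fun m => by
    have := hεle m
    have h2 : χ ≤ 2 * Λ - Real.log |b| := by rw [hχ]; linarith
    linarith
  have hT : ∀ᵐ x ∂μ, ∀ m : ℕ, ∃ C : ℝ, Tame (fun k => Lh b (f^[k] x)) (Ph b)
      (fun k => coc (Dh b) f k x (Sd (Dh b) f x)) (1 / |b|) C χ (χ / (10 * ((m : ℝ) + 1))) :=
    ae_all_iff.2 fun m => MD.tame_ae h μ hfe hK Λ hΛ _ (hεp m) (hε2 m) (hε3 m)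
  have hF := leaf_full0 h μ hfe hK Λ hΛ _ (hεp 0) (hε2 0) (hε3 0) hΛ0
  have hE := MD.leaf_ae h μ hfe hK Λ hΛ _ (hεp 0) (hε2 0) (hε3 0)
  have hmeas := MD.leaf_meas h μ hfe hK Λ hΛ _ (hεp 0) (hε2 0) (hε3 0)
  have hside := MD.bdd_side f μ hfp (leaf (Dh b) (Lh b) (Ph b) f) hmeas
    (hE.mono fun x hx => hx.cont) (hE.mono fun x hx => hx.equi) (KM c b hb0)
    (fun y hy => MD.km_of_freq c b hb0 hb1 y hy)
  have hKae : ∀ᵐ x ∂μ, x ∈ KK c b hb0 := hK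
  filter_upwards [hT, hF, hE, hside, hKae] with x hTx hFx hEx hsx hKx
  have hx0 : leaf (Dh b) (Lh b) (Ph b) f x 0 = x := hEx.zero
  have hkmx : cx x ∈ Km c b := mm_km c b hb0 x _ fun n => (hKx n).2
  have hkm : ∀ y : E, y ∈ KM c b hb0 → cx y ∈ Km c b := by
    rintro y ⟨B, hB⟩
    exact mm_km c b hb0 y B hB
  obtain ⟨C0, hC0⟩ := hTx 0
  obtain ⟨hg1, hg2⟩ := MD.leaf_c1 h x C0 _ _ hC0
  refine ⟨leaf (Dh b) (Lh b) (Ph b) f x, hg1, hg2, hEx.inj, hx0, ?_, ?_, ?_,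
    psi c b hb0 x, psi_curve hC0, psi_real hC0, psi_kp hC0 (3 + |c|) fun k => (hKx k).1, ?_⟩
  · ext y
    rw [hFx y]
    rfl
  · intro hbd t ht
    rcases ht.eq_or_lt with h0 | h0
    · rw [← h0, hx0]; exact hkmx
    · refine hkm _ (hsx 1 (Or.inl rfl) ?_ t (by simpa using h0))
      have : {t : ℝ | 0 < 1 * t} = Ioi 0 := by ext t; simp
      rw [this]
      exact hbd
  · intro hbd t ht
    rcases ht.eq_or_lt with h0 | h0
    · rw [h0, hx0]; exact hkmx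
    · refine hkm _ (hsx (-1) (Or.inr rfl) ?_ t (by simpa using h0))
      have : {t : ℝ | 0 < -1 * t} = Iio 0 := by ext t; simp
      rw [this]
      exact hbd
  · intro a ha
    have hχ' : Λ + Real.log (1 / |b|) = χ := by
      rw [hχ, one_div, Real.log_inv]; ring
    rw [hχ'] at ha
    have hl2 : 0 < Real.log 2 := Real.log_pos (by norm_num)
    have hlim : Tendsto (fun m : ℕ => Real.log 2 / (χ - 2 * (χ / (10 * ((m : ℝ) + 1))))) atTop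
        (𝓝 (Real.log 2 / (χ - 2 * 0))) := by
      refine Tendsto.div tendsto_const_nhds ?_ (by simpa using hχ0.ne')
      refine tendsto_const_nhds.sub (Tendsto.const_mul 2 ?_)
      have h1 : Tendsto (fun m : ℕ => (χ / 10) * (1 / ((m : ℝ) + 1))) atTop (𝓝 ((χ / 10) * 0)) :=
        tendsto_one_div_add_atTop_nhds_zero_nat.const_mul _
      rw [mul_zero] at h1
      refine h1.congr fun m => ?_
      field_simp
    rw [mul_zero, sub_zero] at hlim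
    obtain ⟨m, hm⟩ := (hlim.eventually (gt_mem_nhds ha)).exists
    obtain ⟨C1, hC1⟩ := hTx m
    obtain ⟨C', hC'0, hC'⟩ := psi_growth hC1 (3 + |c|) fun k => (hKx k).1
    refine ⟨C', fun s => (hC' s).trans ?_⟩
    have h1 : 1 ≤ 1 + ‖s‖ := by linarith [norm_nonneg s]
    exact mul_le_mul_of_nonneg_left (Real.rpow_le_rpow_of_exponent_le h1 hm.le) hC'0

end ME
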