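import Pool.Agent.Lib.MP_904526_E.AN0
import Pool.Agent.Lib.MP_904526_E.MM

/-!
# Both branches of a stable curve cannot be bounded when |b| < 1/2

An entire curve of order less than one which is bounded on the real line is constant
(Phragmen-Lindelof in the upper and in the lower half plane, then Liouville).
-/

set_option autoImplicit false

open Set Filter Topology MeasureTheory

namespace ME

/-- every number of the closed upper half plane is the square of a point of the closed first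
quadrant -/
theorem exists_quadrant_sqrt (s : ℂ) (hs : 0 ≤ s.im) : ∃ z : ℂ, 0 ≤ z.re ∧ 0 ≤ z.im ∧ z ^ 2 = s := by
  by_cases h0 : s = 0
  · exact ⟨0, by simp, by simp, by simp [h0]⟩
  set w : ℂ := Complex.exp (Complex.log s / 2) with hw
  have hw2 : w ^ 2 = s := by
    rw [hw, ← Complex.exp_nat_mul]
    have : ((2 : ℕ) : ℂ) * (Complex.log s / 2) = Complex.log s := by
      push_cast; ring
    rw [this, Complex.exp_log h0]
  have him : (Complex.log s / 2).im = s.arg / 2 := by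
    have h4 : Complex.log s / 2 = Complex.log s / ((2 : ℝ) : ℂ) := by norm_num
    rw [h4, Complex.div_ofReal_im, Complex.log_im]
  have hre : w.re = Real.exp ((Complex.log s / 2).re) * Real.cos (s.arg / 2) := by
    rw [hw, Complex.exp_re, him]
  have him' : w.im = Real.exp ((Complex.log s / 2).re) * Real.sin (s.arg / 2) := by
    rw [hw, Complex.exp_im, him]
  have h1 : 0 ≤ s.arg := Complex.arg_nonneg_iff.2 hs
  have h2 := Complex.arg_le_pi s
  have hcos : 0 ≤ Real.cos (s.arg / 2) :=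
    Real.cos_nonneg_of_mem_Icc ⟨by linarith, by linarith⟩
  have hsin : 0 ≤ Real.sin (s.arg / 2) :=
    Real.sin_nonneg_of_nonneg_of_le_pi (by linarith) (by linarith [Real.pi_pos])
  refine ⟨w, ?_, ?_, hw2⟩
  · rw [hre]; positivity
  · rw [him']; positivity

theorem AN2_upper (ψ : ℂ → ℂ × ℂ) (hψ : Differentiable ℂ ψ) (R : ℝ)
    (hR : ∀ t : ℝ, ‖ψ (t : ℂ)‖ ≤ R) (C a : ℝ) (ha : a < 1)
    (hC : ∀ s : ℂ, lp ‖ψ s‖ ≤ C * (1 + ‖s‖) ^ a) (s : ℂ) (hs : 0 ≤ s.im) : ‖ψ s‖ ≤ R := by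
  obtain ⟨z, hz1, hz2, rfl⟩ := exists_quadrant_sqrt s hs
  set f : ℂ → ℂ × ℂ := fun z => ψ (z ^ 2) with hf
  have hfd : Differentiable ℂ f := hψ.comp (differentiable_id.pow 2)
  show ‖f z‖ ≤ R
  refine PhragmenLindelof.quadrant_I hfd.diffContOnCl ?_ ?_ ?_ hz1 hz2
  · set a' : ℝ := max a 0 with ha'
    set C' : ℝ := max C 0 with hC'
    refine ⟨2 * a', ?_, C' * 2 ^ a', ?_⟩
    · have : a' < 1 := max_lt ha (by norm_num)
      linarith
    · refine Asymptotics.IsBigO.of_bound 1 ?_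
      have hlarge : ∀ᶠ z : ℂ in Bornology.cobounded ℂ ⊓ 𝓟 (Ioi 0 ×ℂ Ioi 0), 1 ≤ ‖z‖ :=
        ((tendsto_norm_cobounded_atTop.eventually (eventually_ge_atTop 1)).filter_mono
          inf_le_left)
      filter_upwards [hlarge] with z hz
      rw [one_mul, Real.norm_of_nonneg (Real.exp_pos _).le]
      refine (le_exp_lp _).trans (Real.exp_le_exp.mpr ?_)
      refine (hC (z ^ 2)).trans ?_
      have h0 : (0 : ℝ) < 1 + ‖z ^ 2‖ := by positivity
      have h1 : (1 : ℝ) ≤ 1 + ‖z ^ 2‖ := by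
        have := norm_nonneg (z ^ 2); linarith
      have h2 : (1 + ‖z ^ 2‖) ^ a ≤ (1 + ‖z ^ 2‖) ^ a' :=
        Real.rpow_le_rpow_of_exponent_le h1 (le_max_left _ _)
      have ha0 : 0 ≤ a' := le_max_right _ _
      have h3 : 1 + ‖z ^ 2‖ ≤ 2 * ‖z‖ ^ (2 : ℝ) := by
        rw [norm_pow, show (2 : ℝ) = ((2 : ℕ) : ℝ) by norm_num, Real.rpow_natCast]
        have : 1 ≤ ‖z‖ ^ 2 := one_le_pow₀ hz
        push_cast
        linarith
      have h4 : (1 + ‖z ^ 2‖) ^ a' ≤ 2 ^ a' * ‖z‖ ^ (2 * a') := by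
        refine (Real.rpow_le_rpow h0.le h3 ha0).trans ?_
        rw [Real.mul_rpow (by norm_num) (by positivity), ← Real.rpow_mul (norm_nonneg _)]
      calc C * (1 + ‖z ^ 2‖) ^ a ≤ C' * (1 + ‖z ^ 2‖) ^ a :=
            mul_le_mul_of_nonneg_right (le_max_left _ _) (by positivity)
        _ ≤ C' * (1 + ‖z ^ 2‖) ^ a' :=
            mul_le_mul_of_nonneg_left h2 (le_max_right _ _)
        _ ≤ C' * (2 ^ a' * ‖z‖ ^ (2 * a')) :=
            mul_le_mul_of_nonneg_left h4 (le_max_right _ _)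
        _ = C' * 2 ^ a' * ‖z‖ ^ (2 * a') := by ring
  · intro x hx
    have := hR (x ^ 2)
    simpa [hf] using this
  · intro x hx
    have := hR (-(x ^ 2))
    have h4 : ((x : ℂ) * Complex.I) ^ 2 = ((-(x ^ 2) : ℝ) : ℂ) := by
      rw [mul_pow, Complex.I_sq]; push_cast; ring
    simp only [hf]
    rw [h4]; exact this

/-- an entire curve of order less than one which is bounded on the real line is constant -/
theorem AN2 (ψ : ℂ → ℂ × ℂ) (hψ : Differentiable ℂ ψ) (R : ℝ)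
    (hR : ∀ t : ℝ, ‖ψ (t : ℂ)‖ ≤ R) (C a : ℝ) (ha : a < 1)
    (hC : ∀ s : ℂ, lp ‖ψ s‖ ≤ C * (1 + ‖s‖) ^ a) : ∀ s s' : ℂ, ψ s = ψ s' := by
  have hbd : ∀ s : ℂ, ‖ψ s‖ ≤ R := by
    intro s
    rcases le_total 0 s.im with h | h
    · exact AN2_upper ψ hψ R hR C a ha hC s h
    · have h1 := AN2_upper (fun z => ψ (-z)) (hψ.comp differentiable_neg) R
        (fun t => by
          have := hR (-t)
          simpa using this) C a ha
        (fun z => by
          have := hC (-z)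
          simpa using this) (-s) (by simpa using h)
      simpa using h1
  intro s s'
  refine hψ.apply_eq_apply_of_bounded ?_ s s'
  refine (Metric.isBounded_closedBall (x := (0 : ℂ × ℂ)) (r := R)).subset ?_
  rintro _ ⟨s, rfl⟩
  simpa using hbd s

theorem half (c b : ℝ) (hb0 : 0 < |b|) (hb : |b| < 1 / 2) (μ : Measure (ℝ × ℝ))
    (hp : IsProbabilityMeasure μ) (hμ : Ergodic (henonMap c b) μ) (hs : ¬ SupportedOnSink c b μ) :
    ∀ᵐ x ∂μ, ∃ γ : ℝ → ℝ × ℝ, ContDiff ℝ 1 γ ∧ (∀ t, deriv γ t ≠ 0) ∧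
      Function.Injective γ ∧ γ 0 = x ∧ range γ = stableSet c b x ∧
      ¬ (Bornology.IsBounded (γ '' Ioi 0) ∧ Bornology.IsBounded (γ '' Iio 0)) := by
  have hbne : b ≠ 0 := abs_pos.1 hb0
  obtain ⟨-, Λ, hΛ, -, hae⟩ := measure_part c b hbne (by linarith) μ hp hμ hs
  filter_upwards [hae] with x hx
  obtain ⟨γ, h1, h2, h3, h4, h5, -, -, ψ, hψ, hψγ, -, hgr⟩ := hx
  refine ⟨γ, h1, h2, h3, h4, h5, ?_⟩
  rintro ⟨hbr, hbl⟩
  have hlog : Real.log 2 < Real.log (1 / |b|) := by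
    apply Real.log_lt_log (by norm_num)
    rw [lt_div_iff₀ hb0]
    linarith
  have hl2 : 0 < Real.log 2 := Real.log_pos (by norm_num)
  have hlt : Real.log 2 / (Λ + Real.log (1 / |b|)) < 1 := by
    rw [div_lt_one (by linarith)]
    linarith
  obtain ⟨a, ha1, ha2⟩ := exists_between hlt
  obtain ⟨C, hC⟩ := hgr a ha1
  obtain ⟨B1, hB1⟩ := hbr.exists_norm_le
  obtain ⟨B2, hB2⟩ := hbl.exists_norm_le
  have hbd : ∀ t : ℝ, ‖ψ (t : ℂ)‖ ≤ max (max B1 B2) ‖γ 0‖ := by
    intro t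
    rw [hψγ, cx_norm]
    rcases lt_trichotomy t 0 with h | h | h
    · exact (hB2 _ (mem_image_of_mem γ h)).trans ((le_max_right _ _).trans (le_max_left _ _))
    · rw [h]; exact le_max_right _ _
    · exact (hB1 _ (mem_image_of_mem γ h)).trans ((le_max_left _ _).trans (le_max_left _ _))
  have hconst := AN2 ψ hψ.diff _ hbd C a ha2 hC ((0 : ℝ) : ℂ) ((1 : ℝ) : ℂ)
  rw [hψγ, hψγ] at hconst
  have h01 : γ 0 = γ 1 := by
    have e1 := congrArg Prod.fst hconst
    have e2 := congrArg Prod.snd hconst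
    simp only [cx] at e1 e2
    exact Prod.ext (by exact_mod_cast e1) (by exact_mod_cast e2)
  exact zero_ne_one (h3 h01)

end ME
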