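import Pool.Agent.Lib.MP_904526_E.Defs
import Pool.Agent.Lib.MP_904526_an.L1

/-!
# MC1. Complexification of real linear maps of the plane
-/

open Set Filter Topology MeasureTheory

namespace ME

open MD (E wt Bp Hb Tame)

/-- the complex plane of dimension two with the sup norm -/
abbrev EC := ℂ × ℂ

/-- complexification of a real linear map -/
noncomputable def cxL (A : E →L[ℝ] E) : EC →L[ℂ] EC :=
  (ContinuousLinearMap.fst ℂ ℂ ℂ).smulRight (cx (A (1, 0))) +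
    (ContinuousLinearMap.snd ℂ ℂ ℂ).smulRight (cx (A (0, 1)))

/-- backward products: BpC L k j = L k ∘ ... ∘ L (k+j-1) (j factors) -/
noncomputable def BpC (L : ℕ → EC →L[ℂ] EC) (k : ℕ) : ℕ → EC →L[ℂ] EC
  | 0 => ContinuousLinearMap.id ℂ EC
  | j + 1 => (BpC L k j).comp (L (k + j))

/-- nonlinear backward products -/
noncomputable def HbC (L : ℕ → EC →L[ℂ] EC) (P : EC → EC) (k : ℕ) : ℕ → EC → EC
  | 0 => fun w => w
  | j + 1 => fun w => HbC L P k j (L (k + j) w + P w)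

/-- the complex stable curve at time k (in coordinates centred at the orbit) -/
noncomputable def GamC (L : ℕ → EC →L[ℂ] EC) (P : EC → EC) (v : ℕ → EC) (k : ℕ) (t : ℂ) : EC :=
  limUnder atTop (fun n : ℕ => HbC L P k n (t • v (k + n)))

/-- everything the construction of the complex stable curve needs, with constants -/
structure TameC (L : ℕ → EC →L[ℂ] EC) (P : EC → EC) (v : ℕ → EC) (q C χ ε : ℝ) : Prop where
  hq : 0 < q
  hC : 1 ≤ C
  hε : 0 < ε
  hχ : 5 * ε ≤ χ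
  P0 : P 0 = 0
  Pl : ∀ w w', ‖P w - P w'‖ ≤ q * (‖w‖ + ‖w'‖) * ‖w - w'‖
  bp : ∀ k j : ℕ, ‖BpC L k j‖ ≤ C * Real.exp ((χ + ε) * j + ε * k)
  vup : ∀ k : ℕ, ‖v k‖ ≤ C * wt (χ - ε) k
  vrec : ∀ k, L k (v (k + 1)) = v k

theorem cx_add (p q : E) : cx (p + q) = cx p + cx q := by
  simp [cx]

theorem cx_sub (p q : E) : cx (p - q) = cx p - cx q := by
  simp [cx]

theorem cx_zero : cx 0 = 0 := by
  simp [cx]

theorem cx_smul (t : ℝ) (p : E) : cx (t • p) = (t : ℂ) • cx p := by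
  simp [cx]

theorem cx_norm (p : E) : ‖cx p‖ = ‖p‖ := by
  simp [cx, Prod.norm_def]

theorem cx_inj {p q : E} (h : cx p = cx q) : p = q := by
  simp only [cx, Prod.mk.injEq, Complex.ofReal_inj] at h
  exact Prod.ext h.1 h.2

theorem cx_cont : Continuous cx := by
  unfold cx
  fun_prop

theorem cj_cx (p : E) : cj (cx p) = cx p := by
  simp [cj, cx]

theorem cj_add (p q : EC) : cj (p + q) = cj p + cj q := by
  simp [cj]

theorem cj_smul (t : ℂ) (p : EC) : cj (t • p) = star t • cj p := by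
  simp [cj, mul_comm]

theorem cj_cont : Continuous cj := by
  unfold cj
  fun_prop

theorem cxL_apply (A : E →L[ℝ] E) (w : EC) :
    cxL A w = w.1 • cx (A (1, 0)) + w.2 • cx (A (0, 1)) := by
  simp [cxL]

theorem cxL_cx (A : E →L[ℝ] E) (w : E) : cxL A (cx w) = cx (A w) := by
  rw [cxL_apply]
  have h : A w = w.1 • A (1, 0) + w.2 • A (0, 1) := by
    rw [← map_smul, ← map_smul, ← map_add]
    congr 1
    ext <;> simp
  rw [h, cx_add, cx_smul, cx_smul]
  rfl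

theorem cxL_ext (A : E →L[ℝ] E) (B : EC →L[ℂ] EC) (h : ∀ w : E, B (cx w) = cx (A w)) :
    B = cxL A := by
  refine ContinuousLinearMap.ext fun w => ?_
  have h1 : w = w.1 • cx (1, 0) + w.2 • cx (0, 1) := by
    ext <;> simp [cx]
  conv_lhs => rw [h1]
  rw [map_add, map_smul, map_smul, h, h, cxL_apply]

theorem cxL_id : cxL (ContinuousLinearMap.id ℝ E) = ContinuousLinearMap.id ℂ EC :=
  (cxL_ext _ _ fun w => by simp).symm

theorem cxL_comp (A B : E →L[ℝ] E) : cxL (A.comp B) = (cxL A).comp (cxL B) :=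
  (cxL_ext _ _ fun w => by simp [cxL_cx]).symm

theorem cxL_norm (A : E →L[ℝ] E) : ‖cxL A‖ ≤ 2 * ‖A‖ := by
  refine ContinuousLinearMap.opNorm_le_bound _ (by positivity) fun w => ?_
  rw [cxL_apply]
  have h1 : ‖A (1, 0)‖ ≤ ‖A‖ := by
    have := A.le_opNorm (1, 0)
    simpa [Prod.norm_def] using this
  have h2 : ‖A (0, 1)‖ ≤ ‖A‖ := by
    have := A.le_opNorm (0, 1)
    simpa [Prod.norm_def] using this
  have h3 : ‖w.1‖ ≤ ‖w‖ := norm_fst_le w
  have h4 : ‖w.2‖ ≤ ‖w‖ := norm_snd_le w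
  calc ‖w.1 • cx (A (1, 0)) + w.2 • cx (A (0, 1))‖
      ≤ ‖w.1 • cx (A (1, 0))‖ + ‖w.2 • cx (A (0, 1))‖ := norm_add_le _ _
    _ = ‖w.1‖ * ‖A (1, 0)‖ + ‖w.2‖ * ‖A (0, 1)‖ := by
        rw [norm_smul, norm_smul, cx_norm, cx_norm]
    _ ≤ ‖w‖ * ‖A‖ + ‖w‖ * ‖A‖ := by gcongr
    _ = _ := by ring

theorem cxL_cj (A : E →L[ℝ] E) (w : EC) : cxL A (cj w) = cj (cxL A w) := by
  rw [cxL_apply, cxL_apply, cj_add, cj_smul, cj_smul, cj_cx, cj_cx]
  rfl

theorem BpC_cxL (L : ℕ → E →L[ℝ] E) (k j : ℕ) :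
    BpC (fun i => cxL (L i)) k j = cxL (Bp L k j) := by
  induction j with
  | zero => exact cxL_id.symm
  | succ j ih =>
    show (BpC (fun i => cxL (L i)) k j).comp (cxL (L (k + j))) = _
    rw [ih, ← cxL_comp]
    rfl

theorem HbC_cx (L : ℕ → E →L[ℝ] E) (P : E → E) (PC : EC → EC)
    (hP : ∀ w, PC (cx w) = cx (P w)) (k j : ℕ) (w : E) :
    HbC (fun i => cxL (L i)) PC k j (cx w) = cx (Hb L P k j w) := by
  induction j generalizing w with
  | zero => rfl
  | succ j ih =>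
    show HbC (fun i => cxL (L i)) PC k j (cxL (L (k + j)) (cx w) + PC (cx w)) = _
    rw [cxL_cx, hP, ← cx_add, ih]
    rfl

theorem HbC_cj (L : ℕ → E →L[ℝ] E) (PC : EC → EC) (hP : ∀ w, PC (cj w) = cj (PC w)) (k j : ℕ)
    (w : EC) : HbC (fun i => cxL (L i)) PC k j (cj w) = cj (HbC (fun i => cxL (L i)) PC k j w) := by
  induction j generalizing w with
  | zero => rfl
  | succ j ih =>
    show HbC (fun i => cxL (L i)) PC k j (cxL (L (k + j)) (cj w) + PC (cj w)) = _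
    rw [cxL_cj, hP, ← cj_add, ih]
    rfl

theorem tameC_of {L : ℕ → E →L[ℝ] E} {P : E → E} {v : ℕ → E} {q C χ ε : ℝ}
    (h : Tame L P v q C χ ε) (PC : EC → EC) (hP0 : PC 0 = 0)
    (hPl : ∀ w w', ‖PC w - PC w'‖ ≤ q * (‖w‖ + ‖w'‖) * ‖w - w'‖) :
    TameC (fun i => cxL (L i)) PC (fun i => cx (v i)) q (2 * C) χ ε where
  hq := h.hq
  hC := by linarith [h.hC]
  hε := h.hε
  hχ := h.hχ
  P0 := hP0
  Pl := hPl
  bp := fun k j => by
    rw [BpC_cxL]
    refine (cxL_norm _).trans ?_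
    have := h.bp k j
    linarith
  vup := fun k => by
    rw [cx_norm]
    have h1 := h.vup k
    have h2 : 0 ≤ C * wt (χ - ε) k := (norm_nonneg _).trans h1
    linarith
  vrec := fun k => by rw [cxL_cx, h.vrec]

end ME
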