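import Pool.Agent.Lib.MP_904526_E.MC2

/-!
# MC3. The two comparison lemmas over the complex numbers (port of L2)
-/

open Set Filter Topology MeasureTheory

namespace ME

open MD (E wt wt_pos wt_zero wt_add wt_anti wt_mono wt_mul wt_tendsto K1)


variable {L : ℕ → EC →L[ℂ] EC} {P : EC → EC} {v : ℕ → EC} {q C χ ε : ℝ}

theorem c2_sum (h : TameC L P v q C χ ε) (k m : ℕ) (G : ℕ → EC) (B : ℝ) (hB : 0 ≤ B)
    (hG : ∀ j, j < m → ‖G j‖ ≤ B * wt (χ - ε) (k + j + 1) ^ 2) :
    ‖∑ j ∈ Finset.range m, BpC L k j (G j)‖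
      ≤ B * (K1 C χ ε * wt (χ - 2 * ε) k * wt (χ - ε) k) := by
  calc ‖∑ j ∈ Finset.range m, BpC L k j (G j)‖
      ≤ ∑ j ∈ Finset.range m, ‖BpC L k j (G j)‖ := norm_sum_le _ _
    _ ≤ ∑ j ∈ Finset.range m, B * (‖BpC L k j‖ * wt (χ - ε) (k + j + 1) ^ 2) := by
        apply Finset.sum_le_sum
        intro j hj
        have h1 := hG j (Finset.mem_range.1 hj)
        calc ‖BpC L k j (G j)‖ ≤ ‖BpC L k j‖ * ‖G j‖ := (BpC L k j).le_opNorm _
          _ ≤ ‖BpC L k j‖ * (B * wt (χ - ε) (k + j + 1) ^ 2) :=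
              mul_le_mul_of_nonneg_left h1 (norm_nonneg _)
          _ = _ := by ring
    _ = B * ∑ j ∈ Finset.range m, ‖BpC L k j‖ * wt (χ - ε) (k + j + 1) ^ 2 := by
        rw [Finset.mul_sum]
    _ ≤ _ := mul_le_mul_of_nonneg_left (sumC_bd h k m) hB

theorem c2_mono (h : TameC L P v q C χ ε) {k0 k : ℕ} (hk : k0 ≤ k) :
    wt (χ - 2 * ε) k ≤ wt (χ - 2 * ε) k0 :=
  wt_anti (by linarith [h.hε, h.hχ]) hk

theorem clC0 (h : TameC L P v q C χ ε) (w : ℕ → EC) (k0 n : ℕ) (X : ℝ) (hX : 0 ≤ X)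
    (hrec : ∀ i, k0 ≤ i → i < n → w i = L i (w (i + 1)) + P (w (i + 1)))
    (hend : ∀ k, k0 ≤ k → k ≤ n → ‖BpC L k (n - k) (w n)‖ ≤ X * wt (χ - ε) k)
    (hsm : 4 * q * X * K1 C χ ε * wt (χ - 2 * ε) k0 ≤ 1) :
    ∀ k, k0 ≤ k → k ≤ n → ‖w k‖ ≤ 2 * X * wt (χ - ε) k := by
  have hq := h.hq
  have hK := K1C_pos h
  have key : ∀ m k : ℕ, k0 ≤ k → k ≤ n → n - k = m → ‖w k‖ ≤ 2 * X * wt (χ - ε) k := by
    intro m
    induction m using Nat.strong_induction_on with
    | _ m ih =>
      intro k hk0 hkn hm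
      have hrep := repC (L := L) (P := P) w k (n - k) (fun i hi1 hi2 =>
        hrec i (by omega) (by omega))
      have hkn' : k + (n - k) = n := by omega
      rw [hkn'] at hrep
      have hG : ∀ j, j < n - k → ‖P (w (k + j + 1))‖
          ≤ (4 * q * X ^ 2) * wt (χ - ε) (k + j + 1) ^ 2 := by
        intro j hj
        have h1 := ih (n - (k + j + 1)) (by omega) (k + j + 1) (by omega) (by omega) rfl
        have h2 := PC_sq h (w (k + j + 1))
        have h3 : ‖w (k + j + 1)‖ ^ 2 ≤ (2 * X * wt (χ - ε) (k + j + 1)) ^ 2 :=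
          pow_le_pow_left₀ (norm_nonneg _) h1 2
        calc ‖P (w (k + j + 1))‖ ≤ q * ‖w (k + j + 1)‖ ^ 2 := h2
          _ ≤ q * (2 * X * wt (χ - ε) (k + j + 1)) ^ 2 :=
              mul_le_mul_of_nonneg_left h3 hq.le
          _ = _ := by ring
      have hs := c2_sum h k (n - k) (fun j => P (w (k + j + 1))) (4 * q * X ^ 2)
        (by positivity) hG
      have he := hend k hk0 hkn
      have ha := wt_pos (χ - ε) k
      have hb := c2_mono h hk0
      have hb0 := wt_pos (χ - 2 * ε) k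
      calc ‖w k‖ ≤ ‖BpC L k (n - k) (w n)‖
            + ‖∑ j ∈ Finset.range (n - k), BpC L k j (P (w (k + j + 1)))‖ := by
              rw [hrep]; exact norm_add_le _ _
        _ ≤ X * wt (χ - ε) k
            + 4 * q * X ^ 2 * (K1 C χ ε * wt (χ - 2 * ε) k * wt (χ - ε) k) :=
              add_le_add he hs
        _ = X * wt (χ - ε) k
            + (4 * q * X * K1 C χ ε * wt (χ - 2 * ε) k) * (X * wt (χ - ε) k) := by ring
        _ ≤ X * wt (χ - ε) k + 1 * (X * wt (χ - ε) k) := by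
              have h5 : 4 * q * X * K1 C χ ε * wt (χ - 2 * ε) k ≤ 1 :=
                (mul_le_mul_of_nonneg_left hb (by positivity)).trans hsm
              have h6 : 0 ≤ X * wt (χ - ε) k := by positivity
              have := mul_le_mul_of_nonneg_right h5 h6
              linarith
        _ = _ := by ring
  intro k h1 h2
  exact key _ k h1 h2 rfl

theorem clC1 (h : TameC L P v q C χ ε) (w w' : ℕ → EC) (k0 n : ℕ) (X Y : ℝ) (hX : 0 ≤ X)
    (hY : 0 ≤ Y)
    (hrec : ∀ i, k0 ≤ i → i < n → w i = L i (w (i + 1)) + P (w (i + 1)))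
    (hrec' : ∀ i, k0 ≤ i → i < n → w' i = L i (w' (i + 1)) + P (w' (i + 1)))
    (hw : ∀ k, k0 ≤ k → k ≤ n → ‖w k‖ ≤ Y * wt (χ - ε) k)
    (hw' : ∀ k, k0 ≤ k → k ≤ n → ‖w' k‖ ≤ Y * wt (χ - ε) k)
    (hend : ∀ k, k0 ≤ k → k ≤ n → ‖BpC L k (n - k) (w n - w' n)‖ ≤ X * wt (χ - ε) k)
    (hsm : 4 * q * Y * K1 C χ ε * wt (χ - 2 * ε) k0 ≤ 1) :
    ∀ k, k0 ≤ k → k ≤ n → ‖w k - w' k‖ ≤ 2 * X * wt (χ - ε) k ∧
      ‖w k - w' k - BpC L k (n - k) (w n - w' n)‖
        ≤ 4 * q * Y * X * K1 C χ ε * wt (χ - 2 * ε) k * wt (χ - ε) k := by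
  have hq := h.hq
  have hK := K1C_pos h
  have key : ∀ m k : ℕ, k0 ≤ k → k ≤ n → n - k = m → ‖w k - w' k‖ ≤ 2 * X * wt (χ - ε) k ∧
      ‖w k - w' k - BpC L k (n - k) (w n - w' n)‖
        ≤ 4 * q * Y * X * K1 C χ ε * wt (χ - 2 * ε) k * wt (χ - ε) k := by
    intro m
    induction m using Nat.strong_induction_on with
    | _ m ih =>
      intro k hk0 hkn hm
      have hkn' : k + (n - k) = n := by omega
      have hrep := repC (L := L) (P := P) w k (n - k) (fun i hi1 hi2 =>
        hrec i (by omega) (by omega))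
      have hrep' := repC (L := L) (P := P) w' k (n - k) (fun i hi1 hi2 =>
        hrec' i (by omega) (by omega))
      rw [hkn'] at hrep hrep'
      have hG : ∀ j, j < n - k → ‖P (w (k + j + 1)) - P (w' (k + j + 1))‖
          ≤ (4 * q * Y * X) * wt (χ - ε) (k + j + 1) ^ 2 := by
        intro j hj
        have h1 := (ih (n - (k + j + 1)) (by omega) (k + j + 1) (by omega) (by omega) rfl).1
        have h2 := h.Pl (w (k + j + 1)) (w' (k + j + 1))
        have h3 := hw (k + j + 1) (by omega) (by omega)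
        have h4 := hw' (k + j + 1) (by omega) (by omega)
        have ha := wt_pos (χ - ε) (k + j + 1)
        calc ‖P (w (k + j + 1)) - P (w' (k + j + 1))‖
            ≤ q * (‖w (k + j + 1)‖ + ‖w' (k + j + 1)‖) * ‖w (k + j + 1) - w' (k + j + 1)‖ := h2
          _ ≤ q * (Y * wt (χ - ε) (k + j + 1) + Y * wt (χ - ε) (k + j + 1)) *
                (2 * X * wt (χ - ε) (k + j + 1)) := by
              apply mul_le_mul _ h1 (norm_nonneg _) (by positivity)
              exact mul_le_mul_of_nonneg_left (add_le_add h3 h4) hq.le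
          _ = _ := by ring
      have hs := c2_sum h k (n - k) (fun j => P (w (k + j + 1)) - P (w' (k + j + 1)))
        (4 * q * Y * X) (by positivity) hG
      have hdiff : w k - w' k - BpC L k (n - k) (w n - w' n)
          = ∑ j ∈ Finset.range (n - k), BpC L k j (P (w (k + j + 1)) - P (w' (k + j + 1))) := by
        have h1 : ∑ j ∈ Finset.range (n - k), BpC L k j (P (w (k + j + 1)) - P (w' (k + j + 1)))
            = (∑ j ∈ Finset.range (n - k), BpC L k j (P (w (k + j + 1))))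
              - ∑ j ∈ Finset.range (n - k), BpC L k j (P (w' (k + j + 1))) := by
          rw [← Finset.sum_sub_distrib]
          refine Finset.sum_congr rfl fun j _ => ?_
          rw [map_sub]
        rw [h1, hrep, hrep', map_sub]
        abel
      have he := hend k hk0 hkn
      have ha := wt_pos (χ - ε) k
      have hb := c2_mono h hk0
      have hb0 := wt_pos (χ - 2 * ε) k
      have hsec : ‖w k - w' k - BpC L k (n - k) (w n - w' n)‖
        ≤ 4 * q * Y * X * K1 C χ ε * wt (χ - 2 * ε) k * wt (χ - ε) k := by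
        rw [hdiff]
        refine hs.trans (le_of_eq ?_)
        ring
      refine ⟨?_, hsec⟩
      have h7 : ‖w k - w' k‖ ≤ ‖w k - w' k - BpC L k (n - k) (w n - w' n)‖
          + ‖BpC L k (n - k) (w n - w' n)‖ := by
        have := norm_add_le (w k - w' k - BpC L k (n - k) (w n - w' n))
          (BpC L k (n - k) (w n - w' n))
        simpa using this
      have h5 : 4 * q * Y * K1 C χ ε * wt (χ - 2 * ε) k ≤ 1 :=
        (mul_le_mul_of_nonneg_left hb (by positivity)).trans hsm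
      have h6 : 0 ≤ X * wt (χ - ε) k := by positivity
      have h8 := mul_le_mul_of_nonneg_right h5 h6
      have h9 : 4 * q * Y * K1 C χ ε * wt (χ - 2 * ε) k * (X * wt (χ - ε) k)
          = 4 * q * Y * X * K1 C χ ε * wt (χ - 2 * ε) k * wt (χ - ε) k := by ring
      linarith
  intro k h1 h2
  exact key _ k h1 h2 rfl


end ME
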