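import Pool.Agent.Lib.MP_904526_E.MC3

/-!
# MC4. Existence of the complex stable curve (port of L3)
-/

open Set Filter Topology MeasureTheory

namespace ME

open MD (E wt wt_pos wt_zero wt_add wt_anti wt_mono wt_mul wt_tendsto K1)


variable {L : ℕ → EC →L[ℂ] EC} {P : EC → EC} {v : ℕ → EC} {q C χ ε : ℝ}

/-- the approximating orbits -/
noncomputable def c3_W (L : ℕ → EC →L[ℂ] EC) (P : EC → EC) (v : ℕ → EC) (t : ℂ) (n k : ℕ) : EC :=
  HbC L P k (n - k) (t • v n)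

theorem c3_W_self (t : ℂ) (n : ℕ) : c3_W L P v t n n = t • v n := by
  simp [c3_W, HbC]

theorem c3_W_rec (t : ℂ) (n i : ℕ) (hi : i < n) :
    c3_W L P v t n i = L i (c3_W L P v t n (i + 1)) + P (c3_W L P v t n (i + 1)) := by
  unfold c3_W
  have e : n - i = (n - (i + 1)) + 1 := by omega
  rw [e, HbC_succ']

theorem c3_W_add (t : ℂ) (k n : ℕ) :
    c3_W L P v t (k + n) k = HbC L P k n (t • v (k + n)) := by
  unfold c3_W
  rw [Nat.add_sub_cancel_left]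

theorem c3_Bp_t (h : TameC L P v q C χ ε) (t : ℂ) (k n : ℕ) (hkn : k ≤ n) :
    BpC L k (n - k) (t • v n) = t • v k := by
  have h1 := BpC_v h k (n - k)
  rw [Nat.add_sub_cancel' hkn] at h1
  rw [map_smul, h1]

theorem c3_vt (h : TameC L P v q C χ ε) (t : ℂ) (k : ℕ) :
    ‖t • v k‖ ≤ (C * ‖t‖) * wt (χ - ε) k := by
  rw [norm_smul]
  have := mul_le_mul_of_nonneg_left (h.vup k) (norm_nonneg t)
  calc ‖t‖ * ‖v k‖ ≤ ‖t‖ * (C * wt (χ - ε) k) := this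
    _ = _ := by ring

theorem c3_C_pos (h : TameC L P v q C χ ε) : 0 < C := lt_of_lt_of_le one_pos h.hC

theorem c3_exists (h : TameC L P v q C χ ε) (A : ℝ) :
    ∃ k0 : ℕ, A * wt (χ - 2 * ε) k0 ≤ 1 := by
  have hpos : 0 < χ - 2 * ε := by have := h.hε; have := h.hχ; linarith
  have h1 := (wt_tendsto hpos).const_mul A
  rw [mul_zero] at h1
  exact (h1.eventually (ge_mem_nhds one_pos)).exists

theorem c3_W_bd (h : TameC L P v q C χ ε) (t : ℂ) (k0 n : ℕ) (X : ℝ) (hX0 : 0 ≤ X)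
    (hX : ∀ k, k0 ≤ k → ‖t • v k‖ ≤ X * wt (χ - ε) k)
    (hsm : 4 * q * X * K1 C χ ε * wt (χ - 2 * ε) k0 ≤ 1) :
    ∀ k, k0 ≤ k → k ≤ n → ‖c3_W L P v t n k‖ ≤ 2 * X * wt (χ - ε) k := by
  refine clC0 h (c3_W L P v t n) k0 n X hX0 ?_ ?_ hsm
  · intro i _ hi
    exact c3_W_rec t n i hi
  · intro k hk hkn
    rw [c3_W_self, c3_Bp_t h t k n hkn]
    exact hX k hk

theorem c3_step (h : TameC L P v q C χ ε) (t : ℂ) (k0 n : ℕ)
    (hsm : 8 * q * (C * ‖t‖) * K1 C χ ε * wt (χ - 2 * ε) k0 ≤ 1) :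
    ∀ k, k0 ≤ k → k ≤ n → ‖c3_W L P v t (n + 1) k - c3_W L P v t n k‖
      ≤ 2 * (C * (q * (C * ‖t‖) ^ 2) * wt (χ - 3 * ε) n) * wt (χ - ε) k := by
  intro k hk hkn
  have hq := h.hq
  have hC := c3_C_pos h
  have hK := K1C_pos h
  have hε := h.hε
  have hχ := h.hχ
  have hX0 : 0 ≤ C * ‖t‖ := mul_nonneg hC.le (norm_nonneg t)
  have hw0 := wt_pos (χ - 2 * ε) k0
  have hsm' : 4 * q * (C * ‖t‖) * K1 C χ ε * wt (χ - 2 * ε) k0 ≤ 1 := by
    have : 0 ≤ q * (C * ‖t‖) * K1 C χ ε * wt (χ - 2 * ε) k0 := by positivity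
    nlinarith
  have hZ : 0 ≤ q * (C * ‖t‖) ^ 2 := by positivity
  have hend : ∀ k, k0 ≤ k → k ≤ n →
      ‖BpC L k (n - k) (c3_W L P v t (n + 1) n - c3_W L P v t n n)‖
        ≤ (C * (q * (C * ‖t‖) ^ 2) * wt (χ - 3 * ε) n) * wt (χ - ε) k := by
    intro k hk hkn
    refine endC_bd h k n hkn _ (q * (C * ‖t‖) ^ 2) (χ - 3 * ε) hZ ?_
    have e1 : c3_W L P v t (n + 1) n = t • v n + P (t • v (n + 1)) := by
      rw [c3_W_rec t (n + 1) n (Nat.lt_succ_self n), c3_W_self, map_smul, h.vrec]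
    rw [e1, c3_W_self, add_sub_cancel_left]
    refine (PC_sq h _).trans ?_
    have h2 : ‖t • v (n + 1)‖ ≤ (C * ‖t‖) * wt (χ - ε) n := by
      refine (c3_vt h t (n + 1)).trans ?_
      exact mul_le_mul_of_nonneg_left (wt_anti (by linarith) (Nat.le_succ n)) hX0
    have h3 : ‖t • v (n + 1)‖ ^ 2 ≤ ((C * ‖t‖) * wt (χ - ε) n) ^ 2 :=
      pow_le_pow_left₀ (norm_nonneg _) h2 2
    have h4 : ((C * ‖t‖) * wt (χ - ε) n) ^ 2
        = (C * ‖t‖) ^ 2 * wt (χ + ε + (χ - 3 * ε)) n := by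
      rw [mul_pow, sq (wt (χ - ε) n), wt_mul]
      congr 2
      ring
    calc q * ‖t • v (n + 1)‖ ^ 2 ≤ q * (((C * ‖t‖) * wt (χ - ε) n) ^ 2) :=
          mul_le_mul_of_nonneg_left h3 hq.le
      _ = _ := by rw [h4]; ring
  have hX1 : 0 ≤ C * (q * (C * ‖t‖) ^ 2) * wt (χ - 3 * ε) n :=
    mul_nonneg (mul_nonneg hC.le hZ) (wt_pos _ _).le
  have hmain := clC1 h (c3_W L P v t (n + 1)) (c3_W L P v t n) k0 n
    (C * (q * (C * ‖t‖) ^ 2) * wt (χ - 3 * ε) n) (2 * (C * ‖t‖)) hX1 (by positivity)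
    (fun i _ hi => c3_W_rec t (n + 1) i (Nat.lt_succ_of_lt hi))
    (fun i _ hi => c3_W_rec t n i hi)
    (fun k hk hkn => c3_W_bd h t k0 (n + 1) _ hX0 (fun k _ => c3_vt h t k) hsm' k hk
      (Nat.le_succ_of_le hkn))
    (fun k hk hkn => c3_W_bd h t k0 n _ hX0 (fun k _ => c3_vt h t k) hsm' k hk hkn)
    hend (by calc 4 * q * (2 * (C * ‖t‖)) * K1 C χ ε * wt (χ - 2 * ε) k0
                = 8 * q * (C * ‖t‖) * K1 C χ ε * wt (χ - 2 * ε) k0 := by ring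
              _ ≤ 1 := hsm)
  exact (hmain k hk hkn).1

theorem c3_cauchy (h : TameC L P v q C χ ε) (t : ℂ) (k0 k : ℕ)
    (hsm : 8 * q * (C * ‖t‖) * K1 C χ ε * wt (χ - 2 * ε) k0 ≤ 1) (hk : k0 ≤ k) :
    CauchySeq (fun n : ℕ => HbC L P k n (t • v (k + n))) := by
  have hε := h.hε
  have hχ := h.hχ
  have hC := c3_C_pos h
  have hq := h.hq
  have hr : Real.exp (-(χ - 3 * ε)) < 1 := by
    rw [Real.exp_lt_one_iff]
    linarith
  refine cauchySeq_of_le_geometric (Real.exp (-(χ - 3 * ε)))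
    (2 * (C * (q * (C * ‖t‖) ^ 2)) * wt (χ - ε) k) hr ?_
  intro n
  rw [dist_comm, dist_eq_norm]
  have h1 := c3_step h t k0 (k + n) hsm k hk (Nat.le_add_right k n)
  rw [add_assoc, c3_W_add, c3_W_add] at h1
  refine h1.trans ?_
  have h2 : wt (χ - 3 * ε) (k + n) ≤ Real.exp (-(χ - 3 * ε)) ^ n := by
    have h3 := wt_anti (α := χ - 3 * ε) (by linarith) (Nat.le_add_left n k)
    refine h3.trans (le_of_eq ?_)
    unfold wt
    rw [← Real.exp_nat_mul]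
    congr 1
    ring
  have h4 : 0 ≤ 2 * (C * (q * (C * ‖t‖) ^ 2)) * wt (χ - ε) k :=
    mul_nonneg (by positivity) (wt_pos _ _).le
  calc 2 * (C * (q * (C * ‖t‖) ^ 2) * wt (χ - 3 * ε) (k + n)) * wt (χ - ε) k
      = (2 * (C * (q * (C * ‖t‖) ^ 2)) * wt (χ - ε) k) * wt (χ - 3 * ε) (k + n) := by ring
    _ ≤ _ := mul_le_mul_of_nonneg_left h2 h4

theorem c3_exists_k0 (h : TameC L P v q C χ ε) (t : ℂ) :
    ∃ k0 : ℕ, 8 * q * (C * ‖t‖) * K1 C χ ε * wt (χ - 2 * ε) k0 ≤ 1 :=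
  c3_exists h _

theorem c3_lim (h : TameC L P v q C χ ε) (k : ℕ) (t : ℂ) :
    ∃ x : EC, Tendsto (fun n : ℕ => HbC L P k n (t • v (k + n))) atTop (𝓝 x) := by
  obtain ⟨k0, hk0⟩ := c3_exists_k0 h t
  by_cases hk : k0 ≤ k
  · exact cauchySeq_tendsto_of_complete (c3_cauchy h t k0 k hk0 hk)
  · push Not at hk
    obtain ⟨x, hx⟩ := cauchySeq_tendsto_of_complete (c3_cauchy h t k0 k0 hk0 le_rfl)
    refine ⟨HbC L P k (k0 - k) x, ?_⟩
    rw [← tendsto_add_atTop_iff_nat (k0 - k)]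
    have h1 : (fun n : ℕ => HbC L P k (n + (k0 - k)) (t • v (k + (n + (k0 - k)))))
        = fun n : ℕ => HbC L P k (k0 - k) (HbC L P k0 n (t • v (k0 + n))) := by
      funext n
      have e1 : n + (k0 - k) = (k0 - k) + n := add_comm _ _
      have e2 : k + (k0 - k) = k0 := by omega
      have e3 : k + (n + (k0 - k)) = k0 + n := by omega
      rw [e3, e1, HbC_add, e2]
    rw [h1]
    exact ((HbC_cont (PC_cont h) k (k0 - k)).tendsto x).comp hx

theorem gamC_tendsto (h : TameC L P v q C χ ε) (k : ℕ) (t : ℂ) :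
    Tendsto (fun n : ℕ => HbC L P k n (t • v (k + n))) atTop (𝓝 (GamC L P v k t)) := by
  unfold GamC
  exact tendsto_nhds_limUnder (c3_lim h k t)

theorem gamC_hb (h : TameC L P v q C χ ε) (k j : ℕ) (t : ℂ) :
    GamC L P v k t = HbC L P k j (GamC L P v (k + j) t) := by
  have h1 := gamC_tendsto h k t
  rw [← tendsto_add_atTop_iff_nat j] at h1
  have h2 : (fun n : ℕ => HbC L P k (n + j) (t • v (k + (n + j))))
      = fun n : ℕ => HbC L P k j (HbC L P (k + j) n (t • v (k + j + n))) := by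
    funext n
    have e1 : n + j = j + n := add_comm _ _
    have e3 : k + (j + n) = k + j + n := by omega
    rw [e1, HbC_add, e3]
  rw [h2] at h1
  exact tendsto_nhds_unique h1
    (((HbC_cont (PC_cont h) k j).tendsto _).comp (gamC_tendsto h (k + j) t))

theorem gamC_rec (h : TameC L P v q C χ ε) (k : ℕ) (t : ℂ) :
    GamC L P v k t = L k (GamC L P v (k + 1) t) + P (GamC L P v (k + 1) t) := by
  conv_lhs => rw [gamC_hb h k 1 t]
  rfl

theorem gamC_zero (h : TameC L P v q C χ ε) (k : ℕ) : GamC L P v k 0 = 0 := by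
  have h1 := gamC_tendsto h k 0
  have h2 : (fun n : ℕ => HbC L P k n ((0 : ℂ) • v (k + n))) = fun _ => (0 : EC) := by
    funext n
    rw [zero_smul, HbC_zero h.P0]
  rw [h2] at h1
  exact (tendsto_nhds_unique h1 tendsto_const_nhds)

theorem gamC_small (h : TameC L P v q C χ ε) (k0 : ℕ) (t : ℂ) (X : ℝ) (hX0 : 0 ≤ X)
    (hX : ∀ k, k0 ≤ k → ‖t • v k‖ ≤ X * wt (χ - ε) k)
    (hsm : 4 * q * X * K1 C χ ε * wt (χ - 2 * ε) k0 ≤ 1) :
    ∀ k, k0 ≤ k → ‖GamC L P v k t‖ ≤ 2 * X * wt (χ - ε) k := by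
  intro k hk
  refine le_of_tendsto (gamC_tendsto h k t).norm (Eventually.of_forall ?_)
  intro n
  have h1 := c3_W_bd h t k0 (k + n) X hX0 hX hsm k hk (Nat.le_add_right k n)
  rwa [c3_W_add] at h1

theorem gamC_diff (h : TameC L P v q C χ ε) (k0 : ℕ) (t t' : ℂ) (X : ℝ) (hX0 : 0 ≤ X)
    (hX : ∀ k, k0 ≤ k → ‖t • v k‖ ≤ X * wt (χ - ε) k)
    (hX' : ∀ k, k0 ≤ k → ‖t' • v k‖ ≤ X * wt (χ - ε) k)
    (hsm : 8 * q * X * K1 C χ ε * wt (χ - 2 * ε) k0 ≤ 1) :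
    ∀ k, k0 ≤ k → ‖GamC L P v k t - GamC L P v k t' - (t - t') • v k‖
      ≤ 8 * q * X * (C * ‖t - t'‖) * K1 C χ ε * wt (χ - 2 * ε) k * wt (χ - ε) k := by
  intro k hk
  have hq := h.hq
  have hC := c3_C_pos h
  have hK := K1C_pos h
  have hw0 := wt_pos (χ - 2 * ε) k0
  have hsm' : 4 * q * X * K1 C χ ε * wt (χ - 2 * ε) k0 ≤ 1 := by
    have : 0 ≤ q * X * K1 C χ ε * wt (χ - 2 * ε) k0 := by positivity
    nlinarith
  refine le_of_tendsto (((gamC_tendsto h k t).sub (gamC_tendsto h k t')).sub_const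
    ((t - t') • v k)).norm (Eventually.of_forall ?_)
  intro n
  have hend : ∀ j, k0 ≤ j → j ≤ k + n →
      ‖BpC L j (k + n - j) (c3_W L P v t (k + n) (k + n) - c3_W L P v t' (k + n) (k + n))‖
        ≤ (C * ‖t - t'‖) * wt (χ - ε) j := by
    intro j _ hjn
    rw [c3_W_self, c3_W_self, ← sub_smul, c3_Bp_t h _ j (k + n) hjn]
    exact c3_vt h (t - t') j
  have hmain := clC1 h (c3_W L P v t (k + n)) (c3_W L P v t' (k + n)) k0 (k + n)
    (C * ‖t - t'‖) (2 * X) (by positivity) (by positivity)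
    (fun i _ hi => c3_W_rec t (k + n) i hi)
    (fun i _ hi => c3_W_rec t' (k + n) i hi)
    (fun j hj hjn => c3_W_bd h t k0 (k + n) X hX0 hX hsm' j hj hjn)
    (fun j hj hjn => c3_W_bd h t' k0 (k + n) X hX0 hX' hsm' j hj hjn)
    hend (by calc 4 * q * (2 * X) * K1 C χ ε * wt (χ - 2 * ε) k0
                = 8 * q * X * K1 C χ ε * wt (χ - 2 * ε) k0 := by ring
              _ ≤ 1 := hsm)
  have h2 := (hmain k hk (Nat.le_add_right k n)).2
  rw [c3_W_self, c3_W_self, ← sub_smul, c3_Bp_t h _ k (k + n) (Nat.le_add_right k n),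
    c3_W_add, c3_W_add] at h2
  refine h2.trans (le_of_eq (by ring))


end ME
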