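import Pool.Agent.Lib.MP_904526_E.MC4

/-!
# MC5. The complex stable curve is entire
-/

open Set Filter Topology MeasureTheory

namespace ME

open MD (E wt wt_pos wt_zero wt_add wt_anti wt_mono wt_mul wt_tendsto K1)

variable {L : ℕ → EC →L[ℂ] EC} {P : EC → EC} {v : ℕ → EC} {q C χ ε : ℝ}

theorem HbC_diff (hP : Differentiable ℂ P) (k j : ℕ) : Differentiable ℂ (HbC L P k j) := by
  induction j with
  | zero => exact differentiable_id
  | succ j ih =>
    show Differentiable ℂ (fun w => HbC L P k j (L (k + j) w + P w))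
    exact ih.comp ((L (k + j)).differentiable.add hP)

theorem gamC_unif (h : TameC L P v q C χ ε) (T : ℝ) (hT : 0 ≤ T) (k0 k : ℕ)
    (hsm : 8 * q * (C * T) * K1 C χ ε * wt (χ - 2 * ε) k0 ≤ 1) (hk : k0 ≤ k) :
    TendstoUniformlyOn (fun (n : ℕ) (t : ℂ) => HbC L P k n (t • v (k + n))) (GamC L P v k) atTop
      (Metric.closedBall 0 T) := by
  have hε := h.hε
  have hχ := h.hχ
  have hC := c3_C_pos h
  have hq := h.hq
  have hK := K1C_pos h
  have hw0 := wt_pos (χ - 2 * ε) k0
  set r := Real.exp (-(χ - 3 * ε)) with hrdef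
  have hr0 : 0 < r := Real.exp_pos _
  have hr : r < 1 := by
    rw [hrdef, Real.exp_lt_one_iff]
    linarith
  set A : ℝ := 2 * (C * (q * (C * T) ^ 2)) * wt (χ - ε) k with hA
  have hA0 : 0 ≤ A := mul_nonneg (by positivity) (wt_pos _ _).le
  have hbound : ∀ t ∈ Metric.closedBall (0 : ℂ) T, ∀ n : ℕ,
      dist (HbC L P k n (t • v (k + n))) (HbC L P k (n + 1) (t • v (k + (n + 1)))) ≤ A * r ^ n := by
    intro t ht n
    rw [mem_closedBall_zero_iff] at ht
    have hsm' : 8 * q * (C * ‖t‖) * K1 C χ ε * wt (χ - 2 * ε) k0 ≤ 1 := by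
      refine le_trans ?_ hsm
      gcongr
    rw [dist_comm, dist_eq_norm]
    have h1 := c3_step h t k0 (k + n) hsm' k hk (Nat.le_add_right k n)
    rw [add_assoc, c3_W_add, c3_W_add] at h1
    refine h1.trans ?_
    have h2 : wt (χ - 3 * ε) (k + n) ≤ r ^ n := by
      have h3 := wt_anti (α := χ - 3 * ε) (by linarith) (Nat.le_add_left n k)
      refine h3.trans (le_of_eq ?_)
      rw [hrdef]
      unfold wt
      rw [← Real.exp_nat_mul]
      congr 1
      ring
    have h5 : q * (C * ‖t‖) ^ 2 ≤ q * (C * T) ^ 2 := by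
      have : C * ‖t‖ ≤ C * T := mul_le_mul_of_nonneg_left ht hC.le
      have h6 : 0 ≤ C * ‖t‖ := by positivity
      gcongr
    have hw := wt_pos (χ - ε) k
    have hw3 := wt_pos (χ - 3 * ε) (k + n)
    calc 2 * (C * (q * (C * ‖t‖) ^ 2) * wt (χ - 3 * ε) (k + n)) * wt (χ - ε) k
        ≤ 2 * (C * (q * (C * T) ^ 2) * r ^ n) * wt (χ - ε) k := by gcongr
      _ = A * r ^ n := by rw [hA]; ring
  rw [Metric.tendstoUniformlyOn_iff]
  intro e he
  have hlim : Tendsto (fun n : ℕ => A * r ^ n / (1 - r)) atTop (𝓝 0) := by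
    have h1 := (tendsto_pow_atTop_nhds_zero_of_lt_one hr0.le hr).const_mul A
    rw [mul_zero] at h1
    have h2 := h1.div_const (1 - r)
    rwa [zero_div] at h2
  filter_upwards [hlim.eventually (gt_mem_nhds he)] with n hn t ht
  rw [dist_comm]
  refine lt_of_le_of_lt ?_ hn
  exact dist_le_of_le_geometric_of_tendsto r A hr (hbound t ht) (gamC_tendsto h k t) n

theorem gamC_diffble (h : TameC L P v q C χ ε) (hP : Differentiable ℂ P) (k : ℕ) :
    Differentiable ℂ (GamC L P v k) := by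
  have hC := c3_C_pos h
  have hlevel : ∀ T : ℝ, 0 < T → ∃ k0 : ℕ, ∀ k, k0 ≤ k →
      DifferentiableOn ℂ (GamC L P v k) (Metric.ball 0 T) := by
    intro T hT
    obtain ⟨k0, hk0⟩ := c3_exists h (8 * q * (C * T) * K1 C χ ε)
    refine ⟨k0, fun k hk => ?_⟩
    have h1 := gamC_unif h T hT.le k0 k hk0 hk
    have h2 : TendstoLocallyUniformlyOn (fun (n : ℕ) (t : ℂ) => HbC L P k n (t • v (k + n)))
        (GamC L P v k) atTop (Metric.ball 0 T) :=
      (h1.mono Metric.ball_subset_closedBall).tendstoLocallyUniformlyOn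
    refine h2.differentiableOn (Eventually.of_forall fun n => ?_) Metric.isOpen_ball
    have h3 : Differentiable ℂ (fun t : ℂ => HbC L P k n (t • v (k + n))) :=
      (HbC_diff hP k n).comp (differentiable_id.smul_const _)
    exact h3.differentiableOn
  intro t
  obtain ⟨k0, hk0⟩ := hlevel (‖t‖ + 1) (by positivity)
  have ht : t ∈ Metric.ball (0 : ℂ) (‖t‖ + 1) := by
    rw [mem_ball_zero_iff]; linarith
  have h1 := (hk0 (k + k0) (Nat.le_add_left _ _)).differentiableAt
    (Metric.isOpen_ball.mem_nhds ht)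
  have h2 : GamC L P v k = fun s => HbC L P k k0 (GamC L P v (k + k0) s) := by
    funext s
    exact gamC_hb h k k0 s
  rw [h2]
  exact (HbC_diff hP k k0).differentiableAt.comp t h1

end ME
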