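import Pool.Agent.Lib.MP_904526_E.MC5
import Pool.Agent.Lib.MP_904526_an.M4
import Pool.Agent.Lib.MP_904526_an.F1

/-!
# MC6. The entire curve of a point: symmetry, restriction to the reals, orbits
-/

open Set Filter Topology MeasureTheory

namespace ME

open MD (E wt wt_pos wt_zero wt_add wt_anti wt_mono wt_mul wt_tendsto K1 coc Sd leaf Gam Dh Lh Ph
  hen Tame)

/-- the quadratic part of the inverse map -/
noncomputable def PhC (b : ℝ) (w : EC) : EC := (0, w.2 ^ 2 / (b : ℂ))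

theorem PhC_cx (b : ℝ) (w : E) : PhC b (cx w) = cx (Ph b w) := by
  simp [PhC, cx, Ph]

theorem PhC_cj (b : ℝ) (w : EC) : PhC b (cj w) = cj (PhC b w) := by
  simp [PhC, cj]

theorem PhC_zero (b : ℝ) : PhC b 0 = 0 := by
  simp [PhC]

theorem PhC_lip (b : ℝ) (w w' : EC) :
    ‖PhC b w - PhC b w'‖ ≤ 1 / |b| * (‖w‖ + ‖w'‖) * ‖w - w'‖ := by
  have e : PhC b w - PhC b w' = ((0, (w.2 - w'.2) * (w.2 + w'.2) / (b : ℂ)) : EC) := by
    ext
    · simp [PhC]
    · simp only [PhC, Prod.snd_sub]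
      ring
  rw [e, Prod.norm_mk, norm_zero, max_eq_right (norm_nonneg _), norm_div, norm_mul,
    Complex.norm_real, Real.norm_eq_abs]
  have h2 : ‖w.2 + w'.2‖ ≤ ‖w‖ + ‖w'‖ :=
    (norm_add_le _ _).trans (add_le_add (norm_snd_le w) (norm_snd_le w'))
  have h4 : ‖w.2 - w'.2‖ ≤ ‖w - w'‖ := norm_snd_le (w - w')
  calc ‖w.2 - w'.2‖ * ‖w.2 + w'.2‖ / |b| ≤ ‖w - w'‖ * (‖w‖ + ‖w'‖) / |b| := by gcongr
    _ = _ := by ring

theorem PhC_diff (b : ℝ) : Differentiable ℂ (PhC b) := by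
  unfold PhC
  fun_prop

theorem Gc_ex (c b : ℝ) (hb : b ≠ 0) (x : E) (w : EC) :
    Gc c b (cx (hen c b hb x) + w) = cx x + cxL (Lh b x) w + PhC b w := by
  have hbc : (b : ℂ) ≠ 0 := by exact_mod_cast hb
  rw [MD.hen_apply, cxL_apply, MD.Lh_apply, MD.Lh_apply]
  ext
  · simp [Gc, cx, PhC]
  · simp [Gc, cx, PhC]
    field_simp
    ring

theorem Fc_Gc (c b : ℝ) (hb : b ≠ 0) (p : EC) : Fc c b (Gc c b p) = p := by
  have hbc : (b : ℂ) ≠ 0 := by exact_mod_cast hb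
  ext
  · simp only [Fc, Gc]
    field_simp
    ring
  · simp [Fc, Gc]

theorem Gc_Fc (c b : ℝ) (hb : b ≠ 0) (p : EC) : Gc c b (Fc c b p) = p := by
  have hbc : (b : ℂ) ≠ 0 := by exact_mod_cast hb
  ext
  · simp [Fc, Gc]
  · simp only [Fc, Gc]
    field_simp
    ring

/-- the entire curve of the point x -/
noncomputable def psi (c b : ℝ) (hb : b ≠ 0) (x : E) (s : ℂ) : EC :=
  cx x + GamC (fun k => cxL (Lh b ((hen c b hb)^[k] x))) (PhC b)
    (fun k => cx (coc (Dh b) (hen c b hb) k x (Sd (Dh b) (hen c b hb) x))) 0 s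

variable {c b : ℝ} {hb : b ≠ 0} {x : E} {C χ ε : ℝ}

theorem tameC_psi (ht : Tame (fun k => Lh b ((hen c b hb)^[k] x)) (Ph b)
      (fun k => coc (Dh b) (hen c b hb) k x (Sd (Dh b) (hen c b hb) x)) (1 / |b|) C χ ε) :
    TameC (fun k => cxL (Lh b ((hen c b hb)^[k] x))) (PhC b)
      (fun k => cx (coc (Dh b) (hen c b hb) k x (Sd (Dh b) (hen c b hb) x))) (1 / |b|) (2 * C)
      χ ε :=
  tameC_of ht (PhC b) (PhC_zero b) (PhC_lip b)

theorem psi_real (ht : Tame (fun k => Lh b ((hen c b hb)^[k] x)) (Ph b)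
      (fun k => coc (Dh b) (hen c b hb) k x (Sd (Dh b) (hen c b hb) x)) (1 / |b|) C χ ε) (t : ℝ) :
    psi c b hb x (t : ℂ) = cx (leaf (Dh b) (Lh b) (Ph b) (hen c b hb) x t) := by
  unfold psi leaf
  rw [cx_add]
  congr 1
  have h1 := gamC_tendsto (tameC_psi ht) 0 (t : ℂ)
  have h2 := (cx_cont.tendsto _).comp (MD.gam_tendsto ht 0 t)
  refine tendsto_nhds_unique h1 (h2.congr fun n => ?_)
  simp only [Function.comp]
  rw [← HbC_cx _ _ (PhC b) (PhC_cx b), cx_smul]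

theorem psi_star (ht : Tame (fun k => Lh b ((hen c b hb)^[k] x)) (Ph b)
      (fun k => coc (Dh b) (hen c b hb) k x (Sd (Dh b) (hen c b hb) x)) (1 / |b|) C χ ε) (s : ℂ) :
    psi c b hb x (star s) = cj (psi c b hb x s) := by
  unfold psi
  rw [cj_add, cj_cx]
  congr 1
  have h1 := gamC_tendsto (tameC_psi ht) 0 (star s)
  have h2 := (cj_cont.tendsto _).comp (gamC_tendsto (tameC_psi ht) 0 s)
  refine tendsto_nhds_unique h1 (h2.congr fun n => ?_)
  simp only [Function.comp]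
  rw [← HbC_cj _ (PhC b) (PhC_cj b), cj_smul, cj_cx]

theorem psi_curve (ht : Tame (fun k => Lh b ((hen c b hb)^[k] x)) (Ph b)
      (fun k => coc (Dh b) (hen c b hb) k x (Sd (Dh b) (hen c b hb) x)) (1 / |b|) C χ ε) :
    RealCurve (psi c b hb x) where
  diff := (differentiable_const _).add (gamC_diffble (tameC_psi ht) (PhC_diff b) 0)
  real := psi_star ht

theorem psi_orb (ht : Tame (fun k => Lh b ((hen c b hb)^[k] x)) (Ph b)
      (fun k => coc (Dh b) (hen c b hb) k x (Sd (Dh b) (hen c b hb) x)) (1 / |b|) C χ ε) (s : ℂ)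
    (k : ℕ) :
    (Fc c b)^[k] (psi c b hb x s) = cx ((hen c b hb)^[k] x) +
      GamC (fun k => cxL (Lh b ((hen c b hb)^[k] x))) (PhC b)
        (fun k => cx (coc (Dh b) (hen c b hb) k x (Sd (Dh b) (hen c b hb) x))) k s := by
  induction k with
  | zero => rfl
  | succ k ih =>
    rw [Function.iterate_succ_apply', ih, gamC_rec (tameC_psi ht) k s,
      ← add_assoc, ← Gc_ex c b hb, Fc_Gc c b hb, Function.iterate_succ_apply']

end ME
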