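import Pool.Agent.Lib.MP_904526_E.MC6

/-!
# MC7. The entire curve lies in Kp, and its growth
-/

open Set Filter Topology MeasureTheory

namespace ME

open MD (E wt wt_pos wt_zero wt_add wt_anti wt_mono wt_mul wt_tendsto K1 coc Sd leaf Gam Dh Lh Ph
  hen Tame)

theorem lp_nonneg (t : ℝ) : 0 ≤ lp t := le_max_left _ _

theorem lp_eq (t : ℝ) (ht : 0 ≤ t) : lp t = Real.log (max 1 t) := by
  unfold lp
  rcases le_total t 1 with h | h
  · rw [max_eq_left h, Real.log_one, max_eq_left (Real.log_nonpos ht h)]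
  · rw [max_eq_right h, max_eq_right (Real.log_nonneg h)]

theorem lp_mono {s t : ℝ} (hs : 0 ≤ s) (h : s ≤ t) : lp s ≤ lp t := by
  rw [lp_eq s hs, lp_eq t (hs.trans h)]
  exact Real.log_le_log (by positivity) (max_le_max le_rfl h)

/-- one backward step at most doubles lp, up to a constant -/
theorem lp_Gc (c b : ℝ) (hb : b ≠ 0) :
    ∃ C0 : ℝ, 0 ≤ C0 ∧ ∀ p : EC, lp ‖Gc c b p‖ ≤ 2 * lp ‖p‖ + C0 := by
  have hb' : 0 < |b| := abs_pos.mpr hb
  set K0 : ℝ := max 1 ((2 + |c|) / |b|) with hK0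
  have hK1 : 1 ≤ K0 := le_max_left _ _
  have hK2 : (2 + |c|) / |b| ≤ K0 := le_max_right _ _
  refine ⟨Real.log K0, Real.log_nonneg hK1, fun p => ?_⟩
  set m : ℝ := max 1 ‖p‖ with hm
  have hm1 : 1 ≤ m := le_max_left _ _
  have hm2 : ‖p‖ ≤ m := le_max_right _ _
  have h1 : ‖Gc c b p‖ ≤ K0 * m ^ 2 := by
    have e1 : ‖p.2‖ ≤ m := (norm_snd_le p).trans hm2
    have e2 : ‖p.1‖ ≤ m := (norm_fst_le p).trans hm2
    have hmm : m ≤ m ^ 2 := by nlinarith
    have h1m : 1 ≤ m ^ 2 := by nlinarith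
    unfold Gc
    rw [Prod.norm_mk]
    refine max_le ?_ ?_
    · nlinarith
    · rw [norm_div, Complex.norm_real, Real.norm_eq_abs, div_le_iff₀ hb']
      have e3 : ‖p.2 ^ 2 + (c : ℂ) - p.1‖ ≤ ‖p.2‖ ^ 2 + |c| + ‖p.1‖ := by
        refine (norm_sub_le _ _).trans ?_
        gcongr
        refine (norm_add_le _ _).trans ?_
        rw [norm_pow, Complex.norm_real, Real.norm_eq_abs]
      have e4 : ‖p.2‖ ^ 2 ≤ m ^ 2 := by gcongr
      have e5 : |c| ≤ |c| * m ^ 2 := by nlinarith [abs_nonneg c]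
      have e6 : ‖p.2 ^ 2 + (c : ℂ) - p.1‖ ≤ (2 + |c|) * m ^ 2 := by linarith
      have e7 : (2 + |c|) ≤ K0 * |b| := by
        rwa [div_le_iff₀ hb'] at hK2
      nlinarith
  rw [lp_eq _ (norm_nonneg _), lp_eq ‖p‖ (norm_nonneg _), ← hm]
  have h2 : max 1 ‖Gc c b p‖ ≤ K0 * m ^ 2 := by
    refine max_le ?_ h1
    nlinarith
  calc Real.log (max 1 ‖Gc c b p‖) ≤ Real.log (K0 * m ^ 2) :=
        Real.log_le_log (by positivity) h2
    _ = 2 * Real.log m + Real.log K0 := by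
        rw [Real.log_mul (by positivity) (by positivity), Real.log_pow]
        push_cast
        ring

theorem lp_Gc_iter (c b : ℝ) (hb : b ≠ 0) :
    ∃ C0 : ℝ, 0 ≤ C0 ∧ ∀ (p : EC) (k : ℕ), lp ‖(Gc c b)^[k] p‖ ≤ 2 ^ k * (lp ‖p‖ + C0) := by
  obtain ⟨C0, hC0, h⟩ := lp_Gc c b hb
  refine ⟨C0, hC0, fun p k => ?_⟩
  have key : lp ‖(Gc c b)^[k] p‖ + C0 ≤ 2 ^ k * (lp ‖p‖ + C0) := by
    induction k with
    | zero => simp
    | succ k ih =>
      rw [Function.iterate_succ_apply', pow_succ]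
      have := h ((Gc c b)^[k] p)
      nlinarith
  linarith

theorem Gc_Fc_iter (c b : ℝ) (hb : b ≠ 0) (p : EC) (k : ℕ) :
    (Gc c b)^[k] ((Fc c b)^[k] p) = p :=
  Function.LeftInverse.iterate (Gc_Fc c b hb) k p

variable {c b : ℝ} {hb : b ≠ 0} {x : E} {C χ ε : ℝ}

theorem psi_kp (ht : Tame (fun k => Lh b ((hen c b hb)^[k] x)) (Ph b)
      (fun k => coc (Dh b) (hen c b hb) k x (Sd (Dh b) (hen c b hb) x)) (1 / |b|) C χ ε)
    (R : ℝ) (hR : ∀ k : ℕ, ‖(hen c b hb)^[k] x‖ ≤ R) (s : ℂ) : psi c b hb x s ∈ Kp c b := by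
  set hT := tameC_psi ht
  have hC := c3_C_pos hT
  obtain ⟨k0, hk0⟩ := c3_exists hT (4 * (1 / |b|) * (2 * C * ‖s‖) * K1 (2 * C) χ ε)
  have h1 := gamC_small hT k0 s (2 * C * ‖s‖) (by positivity) (fun k _ => c3_vt hT s k) hk0
  set G := GamC (fun k => cxL (Lh b ((hen c b hb)^[k] x))) (PhC b)
        (fun k => cx (coc (Dh b) (hen c b hb) k x (Sd (Dh b) (hen c b hb) x)))
  have hχ' : 0 ≤ χ - ε := by linarith [ht.hχ, ht.hε]
  have h2 : ∀ k, k0 ≤ k → ‖G k s‖ ≤ 2 * (2 * C * ‖s‖) := by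
    intro k hk
    refine (h1 k hk).trans ?_
    have h3 : wt (χ - ε) k ≤ 1 := by
      rw [← wt_zero (χ - ε)]
      exact wt_anti hχ' (Nat.zero_le k)
    have h4 : 0 ≤ 2 * (2 * C * ‖s‖) := by positivity
    nlinarith
  have h3 : ∃ B : ℝ, ∀ k, ‖G k s‖ ≤ B := by
    refine ⟨(∑ k ∈ Finset.range k0, ‖G k s‖) + 2 * (2 * C * ‖s‖), fun k => ?_⟩
    have h5 : 0 ≤ ∑ k ∈ Finset.range k0, ‖G k s‖ := Finset.sum_nonneg fun _ _ => norm_nonneg _
    have h6 : 0 ≤ 2 * (2 * C * ‖s‖) := by positivity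
    rcases lt_or_ge k k0 with hk | hk
    · have := Finset.single_le_sum (f := fun k => ‖G k s‖) (fun _ _ => norm_nonneg _)
        (Finset.mem_range.2 hk)
      linarith
    · have := h2 k hk
      linarith
  obtain ⟨B, hB⟩ := h3
  refine ⟨R + B, fun n => ?_⟩
  rw [psi_orb ht s n]
  refine (norm_add_le _ _).trans ?_
  rw [cx_norm]
  exact add_le_add (hR n) (hB n)

theorem psi_growth (ht : Tame (fun k => Lh b ((hen c b hb)^[k] x)) (Ph b)
      (fun k => coc (Dh b) (hen c b hb) k x (Sd (Dh b) (hen c b hb) x)) (1 / |b|) C χ ε)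
    (R : ℝ) (hR : ∀ k : ℕ, ‖(hen c b hb)^[k] x‖ ≤ R) :
    ∃ C' : ℝ, 0 ≤ C' ∧ ∀ s : ℂ,
      lp ‖psi c b hb x s‖ ≤ C' * (1 + ‖s‖) ^ (Real.log 2 / (χ - 2 * ε)) := by
  have hT := tameC_psi ht
  have hC := c3_C_pos hT
  have hK := K1C_pos hT
  have hε := ht.hε
  have hχ := ht.hχ
  have hq := ht.hq
  have hR0 : 0 ≤ R := (norm_nonneg _).trans (hR 0)
  have hl2 : 0 < Real.log 2 := Real.log_pos (by norm_num)
  have hχ2 : 0 < χ - 2 * ε := by linarith
  set A : ℝ := 4 * (1 / |b|) * (2 * C) * K1 (2 * C) χ ε with hA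
  have hA0 : 0 < A := by positivity
  set B : ℝ := 2 * (2 * C) / A with hB
  have hB0 : 0 < B := by positivity
  set e : ℝ := Real.log 2 / (χ - 2 * ε) with he
  have he0 : 0 ≤ e := by positivity
  obtain ⟨C0, hC0, hG⟩ := lp_Gc_iter c b hb
  set Q : ℝ := lp (R + B) + C0 with hQ
  have hQ0 : 0 ≤ Q := add_nonneg (lp_nonneg _) hC0
  refine ⟨2 * (max 1 A) ^ e * Q, by positivity, fun s => ?_⟩
  set X : ℝ := max 1 (A * ‖s‖) with hX
  have hX1 : 1 ≤ X := le_max_left _ _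
  have hX2 : A * ‖s‖ ≤ X := le_max_right _ _
  set k : ℕ := ⌈Real.log X / (χ - 2 * ε)⌉₊ with hk
  have hk1 : Real.log X / (χ - 2 * ε) ≤ k := Nat.le_ceil _
  have hk2 : (k : ℝ) < Real.log X / (χ - 2 * ε) + 1 :=
    Nat.ceil_lt_add_one (div_nonneg (Real.log_nonneg hX1) hχ2.le)
  have hXw : X * wt (χ - 2 * ε) k ≤ 1 := by
    have h1 : X ≤ Real.exp ((χ - 2 * ε) * k) := by
      rw [← Real.exp_log (by linarith : (0 : ℝ) < X)]
      apply Real.exp_le_exp.2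
      rw [div_le_iff₀ hχ2] at hk1
      linarith
    unfold wt
    have h2 : Real.exp (-(χ - 2 * ε) * k) = (Real.exp ((χ - 2 * ε) * k))⁻¹ := by
      rw [← Real.exp_neg]; congr 1; ring
    rw [h2]
    rw [mul_inv_le_iff₀ (Real.exp_pos _), one_mul]
    exact h1
  have hw := wt_pos (χ - 2 * ε) k
  have hsm : 4 * (1 / |b|) * (2 * C * ‖s‖) * K1 (2 * C) χ ε * wt (χ - 2 * ε) k ≤ 1 := by
    refine le_trans (le_of_eq ?_) ((mul_le_mul_of_nonneg_right hX2 hw.le).trans hXw)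
    rw [hA]; ring
  have h1 := gamC_small hT k s (2 * C * ‖s‖) (by positivity) (fun k _ => c3_vt hT s k) hsm k le_rfl
  have h2 : ‖(Fc c b)^[k] (psi c b hb x s)‖ ≤ R + B := by
    rw [psi_orb ht s k]
    refine (norm_add_le _ _).trans (add_le_add ?_ ?_)
    · rw [cx_norm]; exact hR k
    · refine h1.trans ?_
      have h3 : wt (χ - ε) k ≤ wt (χ - 2 * ε) k := wt_mono (by linarith) k
      have h4 : A * ‖s‖ * wt (χ - 2 * ε) k ≤ 1 :=
        (mul_le_mul_of_nonneg_right hX2 hw.le).trans hXw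
      have h5 : ‖s‖ * wt (χ - 2 * ε) k ≤ 1 / A := by
        rw [le_div_iff₀ hA0]
        linarith
      calc 2 * (2 * C * ‖s‖) * wt (χ - ε) k ≤ 2 * (2 * C * ‖s‖) * wt (χ - 2 * ε) k := by gcongr
        _ = 2 * (2 * C) * (‖s‖ * wt (χ - 2 * ε) k) := by ring
        _ ≤ 2 * (2 * C) * (1 / A) := by gcongr
        _ = B := by rw [hB]; ring
  have h3 := hG ((Fc c b)^[k] (psi c b hb x s)) k
  rw [Gc_Fc_iter c b hb] at h3
  have h4 : lp ‖(Fc c b)^[k] (psi c b hb x s)‖ + C0 ≤ Q :=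
    add_le_add (lp_mono (norm_nonneg _) h2) le_rfl
  have h5 : (2 : ℝ) ^ k ≤ 2 * X ^ e := by
    have h6 : (2 : ℝ) ^ k = Real.exp (Real.log 2 * k) := by
      rw [mul_comm, Real.exp_nat_mul, Real.exp_log (by norm_num)]
    have h7 : 2 * X ^ e = Real.exp (Real.log 2 + Real.log X * e) := by
      rw [Real.exp_add, Real.exp_log (by norm_num), Real.rpow_def_of_pos (by linarith)]
    rw [h6, h7]
    apply Real.exp_le_exp.2
    have h8 : Real.log X * e = Real.log 2 * (Real.log X / (χ - 2 * ε)) := by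
      rw [he]; ring
    rw [h8]
    nlinarith
  have h6 : X ≤ max 1 A * (1 + ‖s‖) := by
    have hs := norm_nonneg s
    have hm1 : 1 ≤ max 1 A := le_max_left _ _
    have hm2 : A ≤ max 1 A := le_max_right _ _
    refine max_le ?_ ?_
    · nlinarith
    · nlinarith
  have h7 : X ^ e ≤ (max 1 A) ^ e * (1 + ‖s‖) ^ e := by
    rw [← Real.mul_rpow (by positivity) (by positivity)]
    exact Real.rpow_le_rpow (by linarith) h6 he0
  calc lp ‖psi c b hb x s‖ ≤ 2 ^ k * (lp ‖(Fc c b)^[k] (psi c b hb x s)‖ + C0) := h3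
    _ ≤ (2 * X ^ e) * Q := by
        apply mul_le_mul h5 h4 _ (by positivity)
        exact add_nonneg (lp_nonneg _) hC0
    _ ≤ (2 * ((max 1 A) ^ e * (1 + ‖s‖) ^ e)) * Q := by gcongr
    _ = _ := by ring

end ME
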