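import Pool.Agent.Lib.MP_904526_E.AN
import Pool.Agent.Lib.MP_904526_E.AN0
import Pool.Agent.Lib.MP_904526_E.MM

open Set Filter Topology MeasureTheory

namespace ME

theorem RealCurve.neg {ψ : ℂ → ℂ × ℂ} (h : RealCurve ψ) : RealCurve (fun s => ψ (-s)) := by
  refine ⟨h.diff.comp differentiable_neg, fun s => ?_⟩
  have := h.real (-s)
  simpa using this

/-- one branch -/
theorem branch (b₁ δ : ℝ) (hδ : 0 < δ)
    (hAN : ∀ c b : ℝ, -14 ≤ c → c ≤ 1 → 1 / 5 ≤ |b| → |b| ≤ 2 / 5 →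
      ∀ ψ : ℂ → ℂ × ℂ, RealCurve ψ → (∀ s, ψ s ∈ Kp c b) →
      (∀ t : ℝ, 0 ≤ t → ψ (t : ℂ) ∈ Km c b) →
      (∃ C : ℝ, ∀ s : ℂ, lp ‖ψ s‖ ≤ C * (1 + ‖s‖) ^ (1 / 2 + δ)) → ∀ s s' : ℂ, ψ s = ψ s')
    (hb₁ : b₁ ≤ 2 / 5) (hb₂ : ∀ b : ℝ, 0 < |b| → |b| < b₁ →
      Real.log 2 < (1 / 2 + δ) * Real.log (1 / |b|))
    (c b : ℝ) (hb0 : b ≠ 0) (hb1 : |b| < b₁) (Λ : ℝ) (hΛ : 0 ≤ Λ) (hc1 : c ≤ 1)
    (hc : c < -14 → |b| < 3 / 4 → Real.log 3 ≤ Λ)
    (ψ : ℂ → ℂ × ℂ) (h : RealCurve ψ) (hK : ∀ s, ψ s ∈ Kp c b)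
    (hm : ∀ t : ℝ, 0 ≤ t → ψ (t : ℂ) ∈ Km c b) (hbd : ∃ R : ℝ, ∀ t : ℝ, 0 ≤ t → ‖ψ (t : ℂ)‖ ≤ R)
    (hg : ∀ a : ℝ, Real.log 2 / (Λ + Real.log (1 / |b|)) < a →
      ∃ C : ℝ, ∀ s : ℂ, lp ‖ψ s‖ ≤ C * (1 + ‖s‖) ^ a) : ∀ s s' : ℂ, ψ s = ψ s' := by
  have hab : 0 < |b| := abs_pos.mpr hb0
  have hlb := hb₂ b hab hb1
  have hl2 : 0 < Real.log 2 := Real.log_pos (by norm_num)
  have hL : 0 < Real.log (1 / |b|) := by
    by_contra hcon
    push Not at hcon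
    nlinarith
  by_cases hcase : Real.log 2 / (Λ + Real.log (1 / |b|)) < 1 / 2
  · obtain ⟨a, ha1, ha2⟩ := exists_between hcase
    obtain ⟨C, hC⟩ := hg a ha1
    obtain ⟨R, hR⟩ := hbd
    exact AN0 ψ h.diff R hR C a ha2 hC
  · have hχ : Λ + Real.log (1 / |b|) ≤ 2 * Real.log 2 := by
      by_contra hcon
      push Not at hcon
      apply hcase
      rw [div_lt_iff₀ (by linarith)]
      linarith
    have h4 : 2 * Real.log 2 = Real.log 4 := by
      rw [show (4 : ℝ) = 2 ^ 2 by norm_num, Real.log_pow]; norm_num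
    have hb5 : 1 / 4 ≤ |b| := by
      by_contra hcon
      push Not at hcon
      have : Real.log 4 < Real.log (1 / |b|) := by
        apply Real.log_lt_log (by norm_num)
        rw [lt_div_iff₀ hab]
        linarith
      linarith
    have hc14 : -14 ≤ c := by
      by_contra hcon
      push Not at hcon
      have h3 := hc hcon (by linarith)
      have : Real.log (4 / 3) < Real.log (1 / |b|) := by
        apply Real.log_lt_log (by norm_num)
        rw [lt_div_iff₀ hab]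
        linarith
      have h43 : Real.log (4 / 3) = Real.log 4 - Real.log 3 := by
        rw [Real.log_div (by norm_num) (by norm_num)]
      linarith
    refine hAN c b hc14 hc1 (by linarith) (by linarith) ψ h hK hm (hg _ ?_)
    rw [div_lt_iff₀ (by linarith)]
    nlinarith

theorem main : ∃ b₁ : ℝ, 1 / 4 < b₁ ∧ ∀ c b : ℝ, 0 < |b| → |b| < b₁ → MildlyDissipative c b := by
  obtain ⟨δ, hδ, hAN⟩ := AN
  have hl2 : 0 < Real.log 2 := Real.log_pos (by norm_num)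
  -- b₂ = exp (- log 2 / (1/2 + δ)) > 1/4
  set b₂ : ℝ := Real.exp (-(Real.log 2 / (1 / 2 + δ))) with hb₂
  have h14 : 1 / 4 < b₂ := by
    have : (1 / 4 : ℝ) = Real.exp (-(2 * Real.log 2)) := by
      rw [Real.exp_neg, two_mul, Real.exp_add, Real.exp_log (by norm_num)]; norm_num
    rw [this, hb₂, Real.exp_lt_exp, neg_lt_neg_iff, div_lt_iff₀ (by positivity)]
    nlinarith
  refine ⟨min (2 / 5) b₂, lt_min (by norm_num) h14, ?_⟩
  intro c b hb hbb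
  have hb25 : |b| < 2 / 5 := lt_of_lt_of_le hbb (min_le_left _ _)
  have hb0 : b ≠ 0 := abs_pos.mp hb
  refine ⟨by linarith, ?_⟩
  intro μ hμ hμe hμs
  obtain ⟨hc1, Λ, hΛ, hc14, hae⟩ := measure_part c b hb0 (by linarith) μ hμ hμe hμs
  have hb₂' : ∀ b : ℝ, 0 < |b| → |b| < min (2 / 5) b₂ →
      Real.log 2 < (1 / 2 + δ) * Real.log (1 / |b|) := by
    intro b hb hbb
    have h1 : |b| < b₂ := lt_of_lt_of_le hbb (min_le_right _ _)
    have h2 : Real.log |b| < -(Real.log 2 / (1 / 2 + δ)) := by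
      rw [← Real.log_exp (-(Real.log 2 / (1 / 2 + δ)))]
      exact Real.log_lt_log hb h1
    have h4 : Real.log (1 / |b|) = - Real.log |b| := by rw [one_div, Real.log_inv]
    rw [h4]
    have h3 : Real.log 2 / (1 / 2 + δ) < - Real.log |b| := by linarith
    rw [div_lt_iff₀ (by positivity)] at h3
    linarith
  filter_upwards [hae] with x hx
  obtain ⟨γ, h1, h2, h3, h4, h5, h6, h7, ψ, h8, h9, h10, h11⟩ := hx
  refine ⟨γ, h1, h2, h3, h4, h5, ?_, ?_⟩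
  · intro hbd
    have hm : ∀ t : ℝ, 0 ≤ t → ψ (t : ℂ) ∈ Km c b := fun t ht => by
      rw [h9]; exact h6 hbd t ht
    have hR : ∃ R : ℝ, ∀ t : ℝ, 0 ≤ t → ‖ψ (t : ℂ)‖ ≤ R := by
      obtain ⟨R, hR⟩ := hbd.exists_norm_le
      refine ⟨max R ‖cx (γ 0)‖, fun t ht => ?_⟩
      rcases ht.eq_or_lt with h0 | h0
      · rw [← h0, h9]; exact le_max_right _ _
      · rw [h9]
        refine le_trans ?_ (le_max_left _ _)
        have := hR (γ t) ⟨t, h0, rfl⟩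
        simpa [cx, Prod.norm_def] using this
    have := branch _ δ hδ hAN (min_le_left _ _) hb₂' c b hb0 hbb Λ hΛ hc1 hc14 ψ h8 h10 hm hR h11
      ((0 : ℝ) : ℂ) ((1 : ℝ) : ℂ)
    rw [h9, h9] at this
    have h01 : γ 0 = γ 1 := by
      simp only [cx, Prod.mk.injEq, Complex.ofReal_inj] at this
      exact Prod.ext this.1 this.2
    exact zero_ne_one (h3 h01)
  · intro hbd
    have hcoe : ∀ t : ℝ, -(t : ℂ) = ((-t : ℝ) : ℂ) := fun t => by push_cast; ring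
    have hm : ∀ t : ℝ, 0 ≤ t → (fun s => ψ (-s)) (t : ℂ) ∈ Km c b := fun t ht => by
      show ψ (-(t : ℂ)) ∈ Km c b
      rw [hcoe, h9]; exact h7 hbd (-t) (by linarith)
    have hR : ∃ R : ℝ, ∀ t : ℝ, 0 ≤ t → ‖(fun s => ψ (-s)) (t : ℂ)‖ ≤ R := by
      obtain ⟨R, hR⟩ := hbd.exists_norm_le
      refine ⟨max R ‖cx (γ 0)‖, fun t ht => ?_⟩
      show ‖ψ (-(t : ℂ))‖ ≤ _
      rcases ht.eq_or_lt with h0 | h0
      · rw [← h0, hcoe, h9, neg_zero]; exact le_max_right _ _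
      · rw [hcoe, h9]
        refine le_trans ?_ (le_max_left _ _)
        have := hR (γ (-t)) ⟨-t, by simpa using h0, rfl⟩
        simpa [cx, Prod.norm_def] using this
    have := branch _ δ hδ hAN (min_le_left _ _) hb₂' c b hb0 hbb Λ hΛ hc1 hc14
      (fun s => ψ (-s)) h8.neg (fun s => h10 (-s)) hm hR
      (fun a ha => by
        obtain ⟨C, hC⟩ := h11 a ha
        exact ⟨C, fun s => by simpa using hC (-s)⟩)
      ((0 : ℝ) : ℂ) ((1 : ℝ) : ℂ)
    simp only [hcoe] at this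
    rw [h9, h9] at this
    have h01 : γ (-0) = γ (-1) := by
      simp only [cx, Prod.mk.injEq, Complex.ofReal_inj] at this
      exact Prod.ext this.1 this.2
    have := h3 h01
    norm_num at this

end ME
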