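import Pool.Agent.Lib.MP_904526_E.N1
import Pool.Agent.Lib.MP_904526_E.N2
import Pool.Agent.Lib.MP_904526_E.N3

/-!
# N4. The top exponent of a measure which is not supported on a sink
-/

open Set Filter Topology MeasureTheory

namespace ME

open MD

theorem exps (c b : ℝ) (hb : b ≠ 0) (hb1 : |b| < 1) (μ : Measure (ℝ × ℝ))
    [IsProbabilityMeasure μ] (hμ : Ergodic (hen c b hb) μ) (hs : ¬ SupportedOnSink c b μ) :
    c ≤ 1 ∧ ∃ Λ : ℝ, 0 ≤ Λ ∧ (c < -14 → |b| < 3 / 4 → Real.log 3 ≤ Λ) ∧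
      LimExp (Dh b) (hen c b hb) μ Λ := by
  have hfp : MeasurePreserving (hen c b hb) μ μ := hμ.toMeasurePreserving
  refine ⟨no_measure c b hb hb1 μ hfp, ?_⟩
  obtain ⟨M, h⟩ := hen_sys c b hb
  have hK := kk_ae c b hb hb1 μ hfp
  have hsub := c2_sub h μ hfp hK
  have hbdd := c2_bdd h μ hK
  have hΛ : LimExp (Dh b) (hen c b hb) μ hsub.lim := hsub.tendsto_lim hbdd
  refine ⟨hsub.lim, ?_, fun h1 h2 => c14 c b hb h2 h1 μ hfp _ hΛ, hΛ⟩
  by_contra hcon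
  push Not at hcon
  exact hs (sink c b hb hb1 μ hμ _ hΛ hcon)

end ME
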