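import Pool.Agent.Lib.MP_904526_an.M4
import Pool.Agent.Lib.MP_904526_an.G1
import Pool.Agent.Lib.MP_904526_an.F2
import Pool.Agent.Lib.MP_904526_E.Defs

/-!
# N5. The bounded branches of the stable curves consist of points with bounded backward orbits
-/

open Set Filter Topology MeasureTheory

namespace ME

open MD

theorem n5_iter (c b : ℝ) (hb : b ≠ 0) (y : ℝ × ℝ) (n : ℕ) :
    (Gc c b)^[n] (cx y) = cx ((hen c b hb).symm^[n] y) := by
  induction n with
  | zero => rfl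
  | succ n ih =>
    rw [Function.iterate_succ_apply', Function.iterate_succ_apply', ih, hen_symm_apply]
    ext
    · simp [Gc, cx]
    · simp [Gc, cx]

theorem n5_iterF (c b : ℝ) (hb : b ≠ 0) (y : ℝ × ℝ) (n : ℕ) :
    (Fc c b)^[n] (cx y) = cx ((hen c b hb)^[n] y) := by
  induction n with
  | zero => rfl
  | succ n ih =>
    rw [Function.iterate_succ_apply', Function.iterate_succ_apply', ih, hen_apply]
    ext
    · simp [Fc, cx]
    · simp [Fc, cx]

theorem cx_norm (y : ℝ × ℝ) : ‖cx y‖ = ‖y‖ := by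
  simp [cx, Prod.norm_def]

theorem km_cx (c b : ℝ) (hb : b ≠ 0) (y : ℝ × ℝ) (hy : y ∈ KM c b hb) : cx y ∈ Km c b := by
  obtain ⟨B, hB⟩ := hy
  refine ⟨B, fun n => ?_⟩
  rw [n5_iter c b hb, cx_norm]
  exact hB n

theorem side (c b : ℝ) (hb : b ≠ 0) (hb1 : |b| < 1) (μ : Measure (ℝ × ℝ))
    [IsProbabilityMeasure μ] (hμ : Ergodic (hen c b hb) μ) (Λ : ℝ) (hΛ0 : 0 ≤ Λ)
    (hΛ : LimExp (Dh b) (hen c b hb) μ Λ) :
    ∀ᵐ x ∂μ,
      (Bornology.IsBounded (leaf (Dh b) (Lh b) (Ph b) (hen c b hb) x '' Ioi 0) →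
        ∀ t : ℝ, 0 ≤ t → cx (leaf (Dh b) (Lh b) (Ph b) (hen c b hb) x t) ∈ Km c b) ∧
      (Bornology.IsBounded (leaf (Dh b) (Lh b) (Ph b) (hen c b hb) x '' Iio 0) →
        ∀ t : ℝ, t ≤ 0 → cx (leaf (Dh b) (Lh b) (Ph b) (hen c b hb) x t) ∈ Km c b) := by
  set f := hen c b hb with hf
  have hfp : MeasurePreserving f μ μ := hμ.toMeasurePreserving
  obtain ⟨M, h⟩ := hen_sys c b hb
  have hK := kk_ae c b hb hb1 μ hfp
  have hlog : Real.log |b| < 0 := Real.log_neg (abs_pos.mpr hb) hb1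
  set ε : ℝ := -Real.log |b| / 10 with hε
  have hε0 : 0 < ε := by rw [hε]; linarith
  have h2 : 5 * ε ≤ Λ - Real.log |b| := by rw [hε]; linarith
  have h3 : 2 * ε < 2 * Λ - Real.log |b| := by rw [hε]; linarith
  have hE := leaf_ae h μ hμ hK Λ hΛ ε hε0 h2 h3
  have hmeas := leaf_meas h μ hμ hK Λ hΛ ε hε0 h2 h3
  have hside := bdd_side f μ hfp (leaf (Dh b) (Lh b) (Ph b) f) hmeas
    (hE.mono fun x hx => hx.cont) (hE.mono fun x hx => hx.equi) (KM c b hb)
    (fun y hy => km_of_freq c b hb hb1 y hy)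
  have hKae : ∀ᵐ x ∂μ, x ∈ KK c b hb := by rw [ae_iff]; exact hK
  filter_upwards [hside, hE, hKae] with x hx hEx hxK
  have h0 : leaf (Dh b) (Lh b) (Ph b) f x 0 ∈ KM c b hb := by
    rw [hEx.zero]
    exact ⟨3 + |c|, fun n => (hxK n).2⟩
  constructor
  · intro hbd t ht
    refine km_cx c b hb _ ?_
    rcases ht.eq_or_lt with h1 | h1
    · rw [← h1]; exact h0
    · refine hx 1 (Or.inl rfl) ?_ t (by linarith)
      have : {t : ℝ | 0 < 1 * t} = Ioi 0 := by ext t; simp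
      rw [this]; exact hbd
  · intro hbd t ht
    refine km_cx c b hb _ ?_
    rcases ht.eq_or_lt with h1 | h1
    · rw [h1]; exact h0
    · refine hx (-1) (Or.inr rfl) ?_ t (by linarith)
      have : {t : ℝ | 0 < -1 * t} = Iio 0 := by ext t; simp
      rw [this]; exact hbd

end ME
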